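import Pool.Agent.Lib.MP_3c1a32_co.Defs

/-! MP_3c1a32_co: counting the lines of a generalized quadrangle and the blocks (cliques with
`s + 2` vertices) of a graph that is locally `GQ(s,t)` -/

namespace Pool.Agent.MP3c1a32

/-- the number of lines, given the number of points -/
theorem IsGQ.card_lines {P L : Type*} {I : P → L → Prop} {s t : ℕ} [Finite P]
    (h : IsGQ I s t) (hP : Nat.card P = (s + 1) * (s * t + 1)) :
    Finite L ∧ Nat.card L = (t + 1) * (s * t + 1) := by
  classical
  have hfin : ∀ p, {l | I p l}.Finite := fun p =>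
    Set.finite_of_ncard_pos (by rw [h.point_card p]; omega)
  have hL : Finite L := by
    rw [← Set.finite_univ_iff]
    refine (Set.finite_iUnion hfin).subset ?_
    intro l _
    have h1 : {p | I p l}.Nonempty := by
      rw [← Set.ncard_pos (Set.toFinite _), h.line_card l]; omega
    obtain ⟨p, hp⟩ := h1
    exact Set.mem_iUnion.2 ⟨p, hp⟩
  refine ⟨hL, ?_⟩
  have := Fintype.ofFinite P
  have := Fintype.ofFinite L
  have key : ∑ p : P, {l | I p l}.ncard = ∑ l : L, {p | I p l}.ncard := by
    have h1 : ∀ p : P, {l | I p l}.ncard = ∑ l : L, if I p l then 1 else 0 := by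
      intro p
      rw [Set.ncard_eq_toFinset_card', Finset.card_eq_sum_ones, Finset.sum_ite]
      simp
    have h2 : ∀ l : L, {p | I p l}.ncard = ∑ p : P, if I p l then 1 else 0 := by
      intro l
      rw [Set.ncard_eq_toFinset_card', Finset.card_eq_sum_ones, Finset.sum_ite]
      simp
    rw [Finset.sum_congr rfl fun p _ => h1 p, Finset.sum_congr rfl fun l _ => h2 l,
      Finset.sum_comm]
  simp only [h.point_card, h.line_card, Finset.sum_const, Finset.card_univ, smul_eq_mul] at key
  rw [Nat.card_eq_fintype_card] at hP ⊢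
  rw [hP] at key
  have : (s + 1) * Fintype.card L = (s + 1) * ((t + 1) * (s * t + 1)) := by
    linarith
  exact Nat.eq_of_mul_eq_mul_left (Nat.succ_pos s) this

/-- three pairwise collinear points are on a line -/
theorem IsGQ.triangle {P L : Type*} {I : P → L → Prop} {s t : ℕ} (h : IsGQ I s t) {p q r : P}
    {l : L} (hpq : p ≠ q) (hp : I p l) (hq : I q l) (hrp : (collinearity I).Adj r p)
    (hrq : (collinearity I).Adj r q) : I r l := by
  by_contra hr
  obtain ⟨-, m, hrm, hpm⟩ := hrp
  obtain ⟨-, m', hrm', hqm'⟩ := hrq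
  have h1 := (h.proj r l hr).unique ⟨hrm, p, hpm, hp⟩ ⟨hrm', q, hqm', hq⟩
  subst h1
  by_cases hlm : l = m
  · subst hlm; exact hr hrm
  · exact hpq (h.unique l m hlm p q hp hpm hq hqm')

/-- the cliques with `s + 1` points are the lines -/
theorem IsGQ.ncard_cliques {P L : Type*} {I : P → L → Prop} {s t : ℕ} [Finite P]
    (h : IsGQ I s t) (hP : Nat.card P = (s + 1) * (s * t + 1)) (hs : 1 ≤ s) :
    {K : Finset P | (collinearity I).IsNClique (s + 1) K}.ncard = (t + 1) * (s * t + 1) := by
  classical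
  obtain ⟨hL, hLc⟩ := h.card_lines hP
  rw [← hLc]
  symm
  let φ : L → Finset P := fun l => (Set.toFinite {p | I p l}).toFinset
  have hφ : ∀ l p, p ∈ φ l ↔ I p l := fun l p => by simp [φ]
  have hφc : ∀ l, (φ l).card = s + 1 := fun l => by
    rw [← h.line_card l, Set.ncard_eq_toFinset_card _ (Set.toFinite _)]
  have hinj : Function.Injective φ := by
    intro l m hlm
    by_contra hne
    have h1 : 1 < (φ l).card := by rw [hφc]; omega
    obtain ⟨p, hp, q, hq, hpq⟩ := Finset.one_lt_card.1 h1
    have hp' := hp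
    have hq' := hq
    rw [hlm] at hp' hq'
    exact hpq (h.unique l m hne p q ((hφ _ _).1 hp) ((hφ _ _).1 hp') ((hφ _ _).1 hq)
      ((hφ _ _).1 hq'))
  have hrange : {K : Finset P | (collinearity I).IsNClique (s + 1) K} = Set.range φ := by
    ext K
    simp only [Set.mem_setOf_eq, Set.mem_range]
    constructor
    · intro hK
      have h1 : 1 < K.card := by rw [hK.card_eq]; omega
      obtain ⟨p, hp, q, hq, hpq⟩ := Finset.one_lt_card.1 h1
      have hadj := hK.isClique hp hq hpq
      obtain ⟨-, l, hpl, hql⟩ := hadj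
      refine ⟨l, ?_⟩
      symm
      apply Finset.eq_of_subset_of_card_le
      · intro r hr
        rw [hφ]
        by_cases hrp : r = p
        · subst hrp; exact hpl
        by_cases hrq : r = q
        · subst hrq; exact hql
        exact h.triangle hpq hpl hql (hK.isClique hr hp hrp) (hK.isClique hr hq hrq)
      · rw [hφc, hK.card_eq]
    · rintro ⟨l, rfl⟩
      refine ⟨?_, hφc l⟩
      intro p hp q hq hpq
      exact ⟨hpq, l, (hφ _ _).1 hp, (hφ _ _).1 hq⟩
  rw [hrange, ← Set.image_univ, Set.ncard_image_of_injective _ hinj, Set.ncard_univ]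

/-- the cliques with `s + 1` vertices in a neighbourhood -/
theorem LocGQ.ncard_cliques {V : Type} [Finite V] {G : SimpleGraph V} {s t : ℕ} {x : V}
    (h : LocGQ G x s t) (hN : (G.neighborSet x).ncard = (s + 1) * (s * t + 1)) (hs : 1 ≤ s) :
    {K : Finset V | (∀ p ∈ K, G.Adj x p) ∧ G.IsNClique (s + 1) K}.ncard =
      (t + 1) * (s * t + 1) := by
  classical
  obtain ⟨P, L, I, hI, ⟨e⟩⟩ := h
  have hPf : Finite P := Finite.of_equiv _ e.toEquiv
  have hP : Nat.card P = (s + 1) * (s * t + 1) := by
    rw [← Nat.card_congr e.toEquiv, ← hN]; rfl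
  rw [← hI.ncard_cliques hP hs]
  symm
  let ι : P ↪ V := e.symm.toEquiv.toEmbedding.trans (Function.Embedding.subtype _)
  have hι : ∀ p q, G.Adj (ι p) (ι q) ↔ (collinearity I).Adj p q := by
    intro p q
    rw [← e.symm.map_adj_iff]
    rfl
  have hιx : ∀ p, G.Adj x (ι p) := fun p => (e.symm p).2
  have hιs : ∀ y, G.Adj x y → ∃ p, ι p = y := fun y hy => ⟨e ⟨y, hy⟩, by simp [ι]⟩
  refine Set.ncard_congr (fun K _ => K.map ι) ?_ ?_ ?_
  · intro K hK
    refine ⟨?_, ?_, ?_⟩
    · intro p hp
      obtain ⟨q, -, rfl⟩ := Finset.mem_map.1 hp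
      exact hιx q
    · intro p hp q hq hpq
      obtain ⟨p', hp', rfl⟩ := Finset.mem_map.1 hp
      obtain ⟨q', hq', rfl⟩ := Finset.mem_map.1 hq
      exact (hι _ _).2 (hK.isClique hp' hq' (fun hh => hpq (by rw [hh])))
    · rw [Finset.card_map]; exact hK.card_eq
  · intro K K' _ _ hKK
    exact Finset.map_injective ι hKK
  · rintro K ⟨hK1, hK2⟩
    have := Fintype.ofFinite P
    have hmap : (Finset.univ.filter (fun p => ι p ∈ K)).map ι = K := by
      ext y
      simp only [Finset.mem_map, Finset.mem_filter, Finset.mem_univ, true_and]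
      constructor
      · rintro ⟨p, hp, rfl⟩; exact hp
      · intro hy
        obtain ⟨p, rfl⟩ := hιs y (hK1 y hy)
        exact ⟨p, hy, rfl⟩
    refine ⟨Finset.univ.filter (fun p => ι p ∈ K), ⟨?_, ?_⟩, hmap⟩
    · intro p hp q hq hpq
      simp only [Finset.coe_filter, Finset.mem_univ, true_and] at hp hq
      exact (hι _ _).1 (hK2.isClique hp hq fun hh => hpq (ι.injective hh))
    · rw [← Finset.card_map ι, hmap]; exact hK2.card_eq

/-- the blocks through a vertex -/
theorem ncard_blocks {V : Type} [Finite V] {G : SimpleGraph V} {s : ℕ} (x : V) :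
    {C : Finset V | G.IsNClique (s + 2) C ∧ x ∈ C}.ncard =
      {K : Finset V | (∀ p ∈ K, G.Adj x p) ∧ G.IsNClique (s + 1) K}.ncard := by
  classical
  symm
  refine Set.ncard_congr (fun K _ => insert x K) ?_ ?_ ?_
  · rintro K ⟨h1, h2⟩
    exact ⟨h2.insert h1, Finset.mem_insert_self x K⟩
  · rintro K K' ⟨h1, -⟩ ⟨h1', -⟩ hKK
    have hx : x ∉ K := fun hh => G.loopless.irrefl x (h1 x hh)
    have hx' : x ∉ K' := fun hh => G.loopless.irrefl x (h1' x hh)
    have := congrArg (fun C => Finset.erase C x) hKK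
    simpa [Finset.erase_insert hx, Finset.erase_insert hx'] using this
  · rintro C ⟨hC, hx⟩
    refine ⟨C.erase x, ⟨?_, ?_⟩, Finset.insert_erase hx⟩
    · intro p hp
      exact hC.isClique hx (Finset.mem_of_mem_erase hp) (Finset.ne_of_mem_erase hp).symm
    · refine ⟨?_, ?_⟩
      · exact hC.isClique.subset (by exact_mod_cast Finset.erase_subset x C)
      · rw [Finset.card_erase_of_mem hx, hC.card_eq]; rfl

/-- **blocks**: `(s + 2) ∣ v (t + 1) (s t + 1)` -/
theorem block_dvd {V : Type} [Finite V] {G : SimpleGraph V} {s t : ℕ}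
    (hloc : ∀ x, LocGQ G x s t)
    (hN : ∀ x, (G.neighborSet x).ncard = (s + 1) * (s * t + 1)) (hs : 1 ≤ s) :
    (s + 2) ∣ Nat.card V * ((t + 1) * (s * t + 1)) := by
  classical
  have := Fintype.ofFinite V
  have key : ∑ x : V, {C : Finset V | G.IsNClique (s + 2) C ∧ x ∈ C}.ncard =
      ∑ C ∈ Finset.univ.filter (fun C : Finset V => G.IsNClique (s + 2) C), C.card := by
    have h1 : ∀ x : V, {C : Finset V | G.IsNClique (s + 2) C ∧ x ∈ C}.ncard =
        ∑ C ∈ Finset.univ.filter (fun C : Finset V => G.IsNClique (s + 2) C),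
          if x ∈ C then 1 else 0 := by
      intro x
      rw [Finset.sum_ite, Finset.sum_const_zero, add_zero, ← Finset.card_eq_sum_ones,
        Finset.filter_filter, ← Set.ncard_coe_finset]
      congr 1
      ext C
      simp
    rw [Finset.sum_congr rfl fun x _ => h1 x, Finset.sum_comm]
    refine Finset.sum_congr rfl fun C _ => ?_
    rw [Finset.sum_ite, Finset.sum_const_zero, add_zero, ← Finset.card_eq_sum_ones]
    congr 1
    ext x
    simp
  have h2 : ∀ x : V, {C : Finset V | G.IsNClique (s + 2) C ∧ x ∈ C}.ncard =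
      (t + 1) * (s * t + 1) := fun x => by
    rw [ncard_blocks x, (hloc x).ncard_cliques (hN x) hs]
  rw [Finset.sum_congr rfl fun x _ => h2 x, Finset.sum_const, Finset.card_univ,
    smul_eq_mul] at key
  rw [Nat.card_eq_fintype_card, key]
  refine Finset.dvd_sum fun C hC => ?_
  rw [(Finset.mem_filter.1 hC).2.card_eq]

end Pool.Agent.MP3c1a32
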