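import Pool.Agent.Lib.MP_3c1a32_co.Local

/-! MP_3c1a32_co: the parameters of a strongly regular graph that is locally `GQ(s,t)` -/

namespace Pool.Agent.MP3c1a32

variable {V : Type} [Fintype V] [DecidableEq V] {G : SimpleGraph V} [DecidableRel G.Adj]
  {n k l m s t : ℕ}

set_option linter.unusedSectionVars false

theorem srg_deg_pos (h : G.IsSRGWith n k l m) (hbot : G ≠ ⊥) : 0 < k := by
  obtain ⟨a, b, hab⟩ := SimpleGraph.ne_bot_iff_exists_adj.mp hbot
  have h1 := h.regular a
  have h2 : 0 < G.degree a := by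
    rw [SimpleGraph.degree_pos_iff_exists_adj]
    exact ⟨b, hab⟩
  omega

theorem srg_nonempty (h : G.IsSRGWith n k l m) (hbot : G ≠ ⊥) (x : V) :
    (G.neighborSet x).Nonempty := by
  have h1 := h.regular x
  have h2 := srg_deg_pos h hbot
  have h3 : 0 < G.degree x := by omega
  rw [SimpleGraph.degree_pos_iff_exists_adj] at h3
  exact h3

theorem srg_nb (h : G.IsSRGWith n k l m) (x : V) : (G.neighborSet x).ncard = k := by
  rw [← h.regular x, ← SimpleGraph.card_neighborSet_eq_degree, ← Nat.card_eq_fintype_card]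
  rfl

/-- `k` and `λ` -/
theorem par_kl (h : G.IsSRGWith n k l m) (hbot : G ≠ ⊥) {x : V} (hloc : LocGQ G x s t) :
    k = (s + 1) * (s * t + 1) ∧ l = s * (t + 1) := by
  have hne := srg_nonempty h hbot x
  refine ⟨?_, ?_⟩
  · rw [← hloc.nb_card hne, srg_nb h]
  · obtain ⟨y, hy⟩ := hne
    have hy' : G.Adj x y := hy
    rw [← hloc.two_card hy', ← h.of_adj x y hy', ← Nat.card_eq_fintype_card]
    rfl

/-- `0 < μ` and the number of vertices -/
theorem par_n (h : G.IsSRGWith n k l m) (hbot : G ≠ ⊥) (hloc : ∀ x, LocGQ G x s t)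
    (hs : 1 ≤ s) (ht : 1 ≤ t) :
    0 < m ∧ m ≤ k ∧ k + 1 ≤ n ∧ (n - k - 1) * m = k * (s ^ 2 * t) := by
  have hk := srg_deg_pos h hbot
  obtain ⟨a, b, hab⟩ := SimpleGraph.ne_bot_iff_exists_adj.mp hbot
  obtain ⟨hk1, hl1⟩ := par_kl h hbot (hloc a)
  have hn : 0 < n := by
    rw [← h.card]
    exact Fintype.card_pos_iff.mpr ⟨a⟩
  have hp := SimpleGraph.IsSRGWith.param_eq G h hn
  have e1 : k - l - 1 = s ^ 2 * t := by
    have : k = l + 1 + s ^ 2 * t := by
      rw [hk1, hl1]; ring
    omega
  rw [e1] at hp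
  have hpos : 0 < k * (s ^ 2 * t) := by positivity
  rw [hp] at hpos
  have hm : 0 < m := by
    rcases Nat.eq_zero_or_pos m with h0 | h0
    · simp [h0] at hpos
    · exact h0
  have hn2 : 0 < n - k - 1 := by
    rcases Nat.eq_zero_or_pos (n - k - 1) with h0 | h0
    · simp [h0] at hpos
    · exact h0
  refine ⟨hm, ?_, by omega, hp.symm⟩
  -- a non-adjacent pair
  have hex : ∃ y, y ≠ a ∧ ¬ G.Adj a y := by
    by_contra hcon
    push Not at hcon
    have h1 : Fintype.card V ≤ G.degree a + 1 := by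
      have h2 : (Finset.univ : Finset V) ⊆ insert a (G.neighborFinset a) := by
        intro y _
        rw [Finset.mem_insert, SimpleGraph.mem_neighborFinset]
        by_cases hy : y = a
        · exact Or.inl hy
        · exact Or.inr (hcon y hy)
      calc Fintype.card V = (Finset.univ : Finset V).card := (Finset.card_univ).symm
        _ ≤ _ := Finset.card_le_card h2
        _ ≤ _ := by
          rw [← SimpleGraph.card_neighborFinset_eq_degree]
          exact Finset.card_insert_le _ _
    rw [h.card, h.regular a] at h1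
    omega
  obtain ⟨y, hy, hay⟩ := hex
  have h3 : Fintype.card (G.commonNeighbors a y) = m := h.of_not_adj hy.symm hay
  rw [← h3, ← h.regular a, ← SimpleGraph.card_neighborSet_eq_degree]
  exact Fintype.card_le_of_injective (fun z => ⟨z.1, z.2.1⟩) (fun z w hzw => by
    simpa [Subtype.ext_iff] using hzw)

end Pool.Agent.MP3c1a32
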