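import Mathlib

/-! MP_3c1a32_co: generalized quadrangles and graphs that are locally generalized quadrangles -/

namespace Pool.Agent.MP3c1a32

/-- `I` is the incidence relation of a generalized quadrangle `GQ(s,t)` with points `P` and
lines `L`: every line has exactly `s + 1` points, every point is on exactly `t + 1` lines, two
distinct lines have at most one point in common, and for every point `p` and every line `l` with
`p ∉ l` there is exactly one line through `p` that meets `l`. -/
structure IsGQ {P L : Type*} (I : P → L → Prop) (s t : ℕ) : Prop where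
  line_card : ∀ l, {p | I p l}.ncard = s + 1
  point_card : ∀ p, {l | I p l}.ncard = t + 1
  unique : ∀ l m, l ≠ m → ∀ p q, I p l → I p m → I q l → I q m → p = q
  proj : ∀ p l, ¬ I p l → ∃! m, I p m ∧ ∃ q, I q m ∧ I q l

/-- The collinearity graph: distinct points are adjacent if some line contains both. -/
def collinearity {P L : Type*} (I : P → L → Prop) : SimpleGraph P where
  Adj p q := p ≠ q ∧ ∃ l, I p l ∧ I q l
  symm := ⟨fun _ _ ⟨h, l, hp, hq⟩ => ⟨h.symm, l, hq, hp⟩⟩
  loopless := ⟨fun _ h => h.1 rfl⟩

/-- The neighbourhood of `x` in `G` is isomorphic to the collinearity graph of a `GQ(s,t)`. -/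
def LocGQ {V : Type} (G : SimpleGraph V) (x : V) (s t : ℕ) : Prop :=
  ∃ (P L : Type) (I : P → L → Prop), IsGQ I s t ∧
    Nonempty (G.induce (G.neighborSet x) ≃g collinearity I)

end Pool.Agent.MP3c1a32
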