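import Mathlib

/-! MP_3c1a32_co: the families `(q,q)`, `(q²,q)`, `(q³,q²)` -/

namespace Pool.Agent.MP3c1a32

theorem ab_ext {s t m a b : ℕ} (hs : 1 ≤ s) (ht : 1 ≤ t) (hab : a * b = s ^ 2 * t)
    (hma : m + a = s * t + s + 2 + b) (hm : m = 2 * (s * t + 1)) : a = s ∧ b = s * t := by
  have h1 : (a : ℤ) + s * t = s + b := by
    have : ((m + a : ℕ) : ℤ) = ((s * t + s + 2 + b : ℕ) : ℤ) := by rw [hma]
    rw [hm] at this
    push_cast at this
    linarith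
  have h2 : (a : ℤ) * b = s ^ 2 * t := by exact_mod_cast hab
  have h3 : ((a : ℤ) - s) * (a + s * t) = 0 := by
    have : (b : ℤ) = a + s * t - s := by linarith
    rw [this] at h2
    linarith
  have h4 : (0 : ℤ) < a + s * t := by positivity
  have h5 : (a : ℤ) = s := by
    rcases mul_eq_zero.1 h3 with h | h
    · linarith
    · linarith
  refine ⟨by exact_mod_cast h5, ?_⟩
  have : (b : ℤ) = s * t := by linarith
  exact_mod_cast this

theorem ab_low {s t m a b : ℕ} (hs : 1 ≤ s) (ht : 1 ≤ t) (hab : a * b = s ^ 2 * t)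
    (hma : m + a = s * t + s + 2 + b) (hm : m = 2 * (s + 1)) : a = s * t ∧ b = s := by
  have h1 : (a : ℤ) + s = s * t + b := by
    have : ((m + a : ℕ) : ℤ) = ((s * t + s + 2 + b : ℕ) : ℤ) := by rw [hma]
    rw [hm] at this
    push_cast at this
    linarith
  have h2 : (a : ℤ) * b = s ^ 2 * t := by exact_mod_cast hab
  have h3 : ((b : ℤ) - s) * (b + s * t) = 0 := by
    have : (a : ℤ) = b + s * t - s := by linarith
    rw [this] at h2
    linarith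
  have h4 : (0 : ℤ) < b + s * t := by positivity
  have h5 : (b : ℤ) = s := by
    rcases mul_eq_zero.1 h3 with h | h
    · linarith
    · linarith
  refine ⟨?_, by exact_mod_cast h5⟩
  have : (a : ℤ) = s * t := by linarith
  exact_mod_cast this

/-- the multiplicity of `s - 1` when `m = 2 (s t + 1)` -/
theorem mult_ext {s t m a b k f : ℕ} (hs : 1 ≤ s) (ht : 1 ≤ t)
    (hk : k = (s + 1) * (s * t + 1)) (hab : a * b = s ^ 2 * t)
    (hma : m + a = s * t + s + 2 + b) (hf : f * (m * (a + b)) = k * b * (k + b + 1))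
    (hm : m = 2 * (s * t + 1)) : 2 * f * (t + 1) = (s + 1) * (s + 2) * t * (s * t + 1) := by
  obtain ⟨ha, hb⟩ := ab_ext hs ht hab hma hm
  subst hm hk ha hb
  have h : a * (a * t + 1) * (2 * f * (t + 1)) =
      a * (a * t + 1) * ((a + 1) * (a + 2) * t * (a * t + 1)) := by
    nlinarith [hf]
  exact Nat.eq_of_mul_eq_mul_left (by positivity) h

/-- the multiplicity of `s t - 1` when `m = 2 (s + 1)` -/
theorem mult_low {s t m a b k f : ℕ} (hs : 1 ≤ s) (ht : 1 ≤ t)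
    (hk : k = (s + 1) * (s * t + 1)) (hab : a * b = s ^ 2 * t)
    (hma : m + a = s * t + s + 2 + b) (hf : f * (m * (a + b)) = k * b * (k + b + 1))
    (hm : m = 2 * (s + 1)) : 2 * f * (t + 1) = (s + 1) * (s * t + 1) * (s * t + 2) := by
  obtain ⟨ha, hb⟩ := ab_low hs ht hab hma hm
  subst hm hk ha hb
  have h : b * (b + 1) * (2 * f * (t + 1)) =
      b * (b + 1) * ((b + 1) * (b * t + 1) * (b * t + 2)) := by
    nlinarith [hf]
  exact Nat.eq_of_mul_eq_mul_left (by positivity) h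

/-- the number of vertices when `m = 2 (s + 1)` -/
theorem n_low {s t m k n : ℕ} (hk : k = (s + 1) * (s * t + 1))
    (hn : ∃ r, n = 1 + k + r ∧ r * m = k * (s ^ 2 * t)) (hm : m = 2 * (s + 1)) :
    2 * n = 2 + 2 * ((s + 1) * (s * t + 1)) + (s * t + 1) * (s ^ 2 * t) := by
  obtain ⟨r, hr, hr'⟩ := hn
  subst hm hk hr
  have : (s + 1) * (2 * r) = (s + 1) * ((s * t + 1) * (s ^ 2 * t)) := by nlinarith [hr']
  have := Nat.eq_of_mul_eq_mul_left (Nat.succ_pos s) this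
  omega

/-- the divisibility condition when `m = 2 (s + 1)` -/
theorem dvd_low {s t m k n : ℕ} (hk : k = (s + 1) * (s * t + 1))
    (hn : ∃ r, n = 1 + k + r ∧ r * m = k * (s ^ 2 * t)) (hm : m = 2 * (s + 1))
    (hd : (s + 2) ∣ n * ((t + 1) * (s * t + 1))) :
    ((s : ℤ) + 2) ∣ 16 * t ^ 4 - 8 * t ^ 3 - 16 * t ^ 2 + 8 * t := by
  have h1 := n_low hk hn hm
  have h2 : ((s : ℤ) + 2) ∣ (n : ℤ) * ((t + 1) * (s * t + 1)) := by exact_mod_cast hd
  have h3 : ((2 * n : ℕ) : ℤ) = ((2 + 2 * ((s + 1) * (s * t + 1)) +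
    (s * t + 1) * (s ^ 2 * t) : ℕ) : ℤ) := by rw [h1]
  push_cast at h3
  have h4 : (16 * t ^ 4 - 8 * t ^ 3 - 16 * t ^ 2 + 8 * t : ℤ) =
      2 * ((n : ℤ) * ((t + 1) * (s * t + 1))) - (s + 2) * (s^3*t^4 + s^3*t^3 - 2*s^2*t^4 +
        2*s^2*t^3 + 4*s^2*t^2 + 4*s*t^4 - 2*s*t^3 - s*t^2 + 5*s*t - 8*t^4 + 4*t^3 + 8*t^2
        - 2*t + 2) := by
    linear_combination (-((t : ℤ) + 1) * (s * t + 1)) * h3
  rw [h4]
  exact dvd_sub (Dvd.dvd.mul_left h2 2) (dvd_mul_right _ _)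

/-- `(q²,q)`, `m = 2 (s + 1)` -/
theorem fam_sq {s t m k n : ℕ} (hst : s = t ^ 2) (ht : 2 ≤ t)
    (hk : k = (s + 1) * (s * t + 1))
    (hn : ∃ r, n = 1 + k + r ∧ r * m = k * (s ^ 2 * t)) (hm : m = 2 * (s + 1))
    (hd : (s + 2) ∣ n * ((t + 1) * (s * t + 1))) : t = 2 ∨ t = 5 := by
  have h1 := dvd_low hk hn hm hd
  rw [hst] at h1
  push_cast at h1
  have h2 : ((t : ℤ) ^ 2 + 2) ∣ (24 * t + 96 : ℤ) := by
    have : (24 * t + 96 : ℤ) = (16 * t ^ 4 - 8 * t ^ 3 - 16 * t ^ 2 + 8 * t) -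
      (t ^ 2 + 2) * (16*t^2 - 8*t - 48) := by ring
    rw [this]
    exact dvd_sub h1 (dvd_mul_right _ _)
  have h3 : (t ^ 2 + 2) ∣ 24 * t + 96 := by exact_mod_cast h2
  have h4 : t ^ 2 + 2 ≤ 24 * t + 96 := Nat.le_of_dvd (by omega) h3
  have h5 : t ≤ 27 := by nlinarith
  clear h1 h2 h4
  interval_cases t <;> first | (left; rfl) | (right; rfl) | (exfalso; revert h3; decide)

/-- `(q,q)`, `m = 2 (s + 1)` -/
theorem fam_eq {s t m k n p r : ℕ} (hst : s = t) (hp : p.Prime) (hr : 1 ≤ r) (ht : t = p ^ r)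
    (hk : k = (s + 1) * (s * t + 1))
    (hn : ∃ r, n = 1 + k + r ∧ r * m = k * (s ^ 2 * t)) (hm : m = 2 * (s + 1))
    (hd : (s + 2) ∣ n * ((t + 1) * (s * t + 1))) :
    t = 2 ∨ t = 3 ∨ t = 4 ∨ t = 8 ∨ t = 13 := by
  have h1 := dvd_low hk hn hm hd
  subst hst
  have h2 : ((s : ℤ) + 2) ∣ 240 := by
    have : (240 : ℤ) = (16 * s ^ 4 - 8 * s ^ 3 - 16 * s ^ 2 + 8 * s) -
      (s + 2) * (16*s^3 - 40*s^2 + 64*s - 120) := by ring
    rw [this]
    exact dvd_sub h1 (dvd_mul_right _ _)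
  have h3 : (s + 2) ∣ 240 := by exact_mod_cast h2
  have hs : 2 ≤ s := by
    rw [ht]
    calc 2 ≤ p := hp.two_le
      _ = p ^ 1 := (pow_one p).symm
      _ ≤ p ^ r := Nat.pow_le_pow_right hp.pos hr
  have h4 : s + 2 ∈ Nat.divisors 240 := by simp [h3]
  have h5 : Nat.divisors 240 = {1, 2, 3, 4, 5, 6, 8, 10, 12, 15, 16, 20, 24, 30, 40, 48, 60, 80,
    120, 240} := by decide +kernel
  rw [h5] at h4
  simp only [Finset.mem_insert, Finset.mem_singleton] at h4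
  -- two different primes cannot divide a power of `p`
  have h6 : ∀ a b : ℕ, a.Prime → b.Prime → a ∣ s → b ∣ s → a = b := by
    intro a b ha hb has hbs
    rw [ht] at has hbs
    have h7 := (Nat.prime_dvd_prime_iff_eq ha hp).1 (ha.dvd_of_dvd_pow has)
    have h8 := (Nat.prime_dvd_prime_iff_eq hb hp).1 (hb.dvd_of_dvd_pow hbs)
    rw [h7, h8]
  rcases h4 with h | h | h | h | h | h | h | h | h | h | h | h | h | h | h | h | h | h | h | h
  · omega
  · omega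
  · omega
  · left; omega
  · right; left; omega
  · right; right; left; omega
  · exact absurd (h6 2 3 (by norm_num) (by norm_num) ⟨3, by omega⟩ ⟨2, by omega⟩) (by norm_num)
  · right; right; right; left; omega
  · exact absurd (h6 2 5 (by norm_num) (by norm_num) ⟨5, by omega⟩ ⟨2, by omega⟩) (by norm_num)
  · right; right; right; right; omega
  · exact absurd (h6 2 7 (by norm_num) (by norm_num) ⟨7, by omega⟩ ⟨2, by omega⟩) (by norm_num)
  · exact absurd (h6 2 3 (by norm_num) (by norm_num) ⟨9, by omega⟩ ⟨6, by omega⟩) (by norm_num)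
  · exact absurd (h6 2 11 (by norm_num) (by norm_num) ⟨11, by omega⟩ ⟨2, by omega⟩)
      (by norm_num)
  · exact absurd (h6 2 7 (by norm_num) (by norm_num) ⟨14, by omega⟩ ⟨4, by omega⟩)
      (by norm_num)
  · exact absurd (h6 2 19 (by norm_num) (by norm_num) ⟨19, by omega⟩ ⟨2, by omega⟩)
      (by norm_num)
  · exact absurd (h6 2 23 (by norm_num) (by norm_num) ⟨23, by omega⟩ ⟨2, by omega⟩)
      (by norm_num)
  · exact absurd (h6 2 29 (by norm_num) (by norm_num) ⟨29, by omega⟩ ⟨2, by omega⟩)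
      (by norm_num)
  · exact absurd (h6 2 3 (by norm_num) (by norm_num) ⟨39, by omega⟩ ⟨26, by omega⟩)
      (by norm_num)
  · exact absurd (h6 2 59 (by norm_num) (by norm_num) ⟨59, by omega⟩ ⟨2, by omega⟩)
      (by norm_num)
  · exact absurd (h6 2 7 (by norm_num) (by norm_num) ⟨119, by omega⟩ ⟨34, by omega⟩)
      (by norm_num)

/-- `(q³,q²)`, `m = 2 (s t + 1)` -/
theorem fam_cube_ext {q f : ℕ} (hq : 2 ≤ q)
    (hf : 2 * f * (q ^ 2 + 1) = (q ^ 3 + 1) * (q ^ 3 + 2) * q ^ 2 * (q ^ 3 * q ^ 2 + 1)) :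
    q = 2 := by
  have h1 : ((q : ℤ) ^ 2 + 1) ∣ (2 * q - 4 : ℤ) := by
    have h0 : (2 * (f : ℤ) * (q ^ 2 + 1)) =
      (q ^ 3 + 1) * (q ^ 3 + 2) * q ^ 2 * (q ^ 3 * q ^ 2 + 1) := by exact_mod_cast hf
    have : (2 * q - 4 : ℤ) = (q ^ 2 + 1) * (2 * f) - (q ^ 2 + 1) * (q^11 - q^9 + 3*q^8 + q^7
        - 2*q^6 + q^5 + 2*q^4 + 2*q^3 - 2*q^2 - 2*q + 4) := by
      linear_combination -h0
    rw [this]
    exact dvd_sub (dvd_mul_right _ _) (dvd_mul_right _ _)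
  by_contra hne
  have h2 : (0 : ℤ) < 2 * q - 4 := by
    have : 3 ≤ q := by omega
    have : (3 : ℤ) ≤ q := by exact_mod_cast this
    linarith
  have h3 := Int.le_of_dvd h2 h1
  nlinarith

/-- `(q³,q²)`, `m = 2 (s + 1)` -/
theorem fam_cube_low {q f : ℕ} (hq : 2 ≤ q)
    (hf : 2 * f * (q ^ 2 + 1) = (q ^ 3 + 1) * (q ^ 3 * q ^ 2 + 1) * (q ^ 3 * q ^ 2 + 2)) :
    q = 3 := by
  have h1 : ((q : ℤ) ^ 2 + 1) ∣ (2 * q + 4 : ℤ) := by
    have h0 : (2 * (f : ℤ) * (q ^ 2 + 1)) =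
      (q ^ 3 + 1) * (q ^ 3 * q ^ 2 + 1) * (q ^ 3 * q ^ 2 + 2) := by exact_mod_cast hf
    have : (2 * q + 4 : ℤ) = (q ^ 2 + 1) * (2 * f) - (q ^ 2 + 1) * (q^11 - q^9 + q^8 + q^7
        + 2*q^6 - q^5 - 2*q^4 + 4*q^3 + 2*q^2 - 2*q - 2) := by
      linear_combination -h0
    rw [this]
    exact dvd_sub (dvd_mul_right _ _) (dvd_mul_right _ _)
  have h2 : (q ^ 2 + 1) ∣ 2 * q + 4 := by exact_mod_cast h1
  have h3 : q ^ 2 + 1 ≤ 2 * q + 4 := Nat.le_of_dvd (by omega) h2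
  have h4 : q ≤ 3 := by nlinarith
  interval_cases q
  · exfalso; revert h2; decide
  · rfl

/-- `(q³,q²)` with `q = 3` and `m = 2 (s + 1)` is impossible -/
theorem fam_cube_low3 {k n m : ℕ} (hk : k = (27 + 1) * (27 * 9 + 1))
    (hn : ∃ r, n = 1 + k + r ∧ r * m = k * (27 ^ 2 * 9)) (hm : m = 2 * (27 + 1))
    (hd : (27 + 2) ∣ n * ((9 + 1) * (27 * 9 + 1))) : False := by
  obtain ⟨r, hr, hr'⟩ := hn
  subst hm hk
  have h1 : r = 800442 := by omega
  subst h1 hr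
  revert hd
  decide

end Pool.Agent.MP3c1a32
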