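import Pool.Agent.Lib.MP_3c1a32_co.Numeric

/-! MP_3c1a32_co: the final list -/

namespace Pool.Agent.MP3c1a32

variable {n k l m s t a b f p i j : ℕ}

theorem Pkg.n_eq (h : Pkg n k l m s t a b f) {r : ℕ}
    (hr : r * m = (s + 1) * (s * t + 1) * (s ^ 2 * t)) :
    n = 1 + (s + 1) * (s * t + 1) + r := by
  obtain ⟨r', hr1, hr2⟩ := h.hn
  rw [h.hk] at hr1 hr2
  rw [← hr2] at hr
  have := Nat.eq_of_mul_eq_mul_right h.hm hr
  rw [this, hr1]

theorem Pkg.eq (h : Pkg n k l m s t a b f) {n' k' l' m' : ℕ} (hm : m = m')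
    (hk : (s + 1) * (s * t + 1) = k') (hl : s * (t + 1) = l') {r : ℕ}
    (hr : r * m' = k' * (s ^ 2 * t)) (hn : 1 + k' + r = n') :
    (n, k, l, m) = (n', k', l', m') := by
  subst hm hk hl hn
  rw [h.n_eq hr, h.hk, h.hl]

/-- `j ≤ i` and `m = 2 (s t + 1)` -/
theorem Pkg.dvd_ext (h : Pkg n k l m s t a b f) (hs : 1 ≤ s) (ht : 1 ≤ t)
    (hm : m = 2 * (s * t + 1)) : (t + 1) ∣ (s ^ 2 - 1) * (s + 2) := by
  have h1 := mult_ext hs ht h.hk h.hab h.hma h.hf hm
  have h2 : ((t : ℤ) + 1) ∣ ((s : ℤ) ^ 2 - 1) * (s + 2) := by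
    have h3 : (2 * (f : ℤ) * (t + 1)) = (s + 1) * (s + 2) * t * (s * t + 1) := by
      exact_mod_cast h1
    have h4 : ((s : ℤ) ^ 2 - 1) * (s + 2) = (t + 1) * (2 * f) - (t + 1) *
      ((s + 1) * (s + 2) * (s * t - s + 1)) := by
      linear_combination -h3
    rw [h4]
    exact dvd_sub (dvd_mul_right _ _) (dvd_mul_right _ _)
  have h5 : ((s ^ 2 - 1 : ℕ) : ℤ) = (s : ℤ) ^ 2 - 1 := by
    rw [Nat.cast_sub (Nat.one_le_pow _ _ hs)]
    push_cast
    ring
  have h6 : (((t + 1 : ℕ)) : ℤ) ∣ (((s ^ 2 - 1) * (s + 2) : ℕ) : ℤ) := by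
    push_cast [h5]
    exact h2
  exact_mod_cast h6

/-- `m = 2 (s + 1)` -/
theorem Pkg.dvd_low' (h : Pkg n k l m s t a b f) (ht : 1 ≤ t)
    (hm : m = 2 * (s + 1)) : (s + 2) ∣ 8 * t * (t ^ 2 - 1) * (2 * t - 1) := by
  have h1 := dvd_low h.hk h.hn hm h.hblock
  have h5 : ((t ^ 2 - 1 : ℕ) : ℤ) = (t : ℤ) ^ 2 - 1 := by
    rw [Nat.cast_sub (Nat.one_le_pow _ _ ht)]
    push_cast
    ring
  have h7 : ((2 * t - 1 : ℕ) : ℤ) = 2 * (t : ℤ) - 1 := by
    rw [Nat.cast_sub (by omega)]
    push_cast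
    ring
  have h6 : (((s + 2 : ℕ)) : ℤ) ∣ ((8 * t * (t ^ 2 - 1) * (2 * t - 1) : ℕ) : ℤ) := by
    push_cast [h5, h7]
    have h8 : (8 * (t : ℤ) * (t ^ 2 - 1) * (2 * t - 1)) =
        16 * t ^ 4 - 8 * t ^ 3 - 16 * t ^ 2 + 8 * t := by ring
    rw [h8]
    exact h1
  exact_mod_cast h6

theorem num_final (h : Pkg n k l m s t a b f) (hp : p.Prime) (hi : 1 ≤ i) (hj : 1 ≤ j)
    (hs : s = p ^ i) (ht : t = p ^ j) :
    (i < j → (n, k, l, m) = (64, 27, 10, 12) ∨ (n, k, l, m) = (275, 112, 30, 56) ∨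
      (n, k, l, m) = (486, 165, 36, 66) ∨ (n, k, l, m) = (870, 165, 36, 30) ∨
      (n, k, l, m) = (242194, 8721, 528, 306)) ∧
    (j ≤ i → (m = 2 * (s * t + 1) ∧ (t + 1) ∣ (s ^ 2 - 1) * (s + 2)) ∨
      (m = 2 * (s + 1) ∧ (s + 2) ∣ 8 * t * (t ^ 2 - 1) * (2 * t - 1)) ∨
      (n, k, l, m) = (3914, 585, 72, 90)) ∧
    (2 * i = 3 * j → (n, k, l, m) = (1450, 297, 40, 66)) ∧
    (i = 2 * j → m = 2 * (s * t + 1) ∨ (n, k, l, m) = (190, 45, 12, 10) ∨
      (n, k, l, m) = (200152, 3276, 150, 52)) ∧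
    (i = j → m = 2 * (s * t + 1) ∨ (n, k, l, m) = (36, 15, 6, 6) ∨
      (n, k, l, m) = (176, 40, 12, 8) ∨ (n, k, l, m) = (630, 85, 20, 10) ∨
      (n, k, l, m) = (3914, 585, 72, 90) ∨ (n, k, l, m) = (17226, 585, 72, 18) ∨
      (n, k, l, m) = (189126, 2380, 182, 28)) := by
  have hp2 := hp.two_le
  have hs2 : 2 ≤ s := by
    rw [hs]
    calc 2 ≤ p := hp.two_le
      _ = p ^ 1 := (pow_one p).symm
      _ ≤ p ^ i := Nat.pow_le_pow_right hp.pos hi
  have ht2 : 2 ≤ t := by
    rw [ht]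
    calc 2 ≤ p := hp.two_le
      _ = p ^ 1 := (pow_one p).symm
      _ ≤ p ^ j := Nat.pow_le_pow_right hp.pos hj
  have hlt : i < j ↔ s < t := by
    rw [hs, ht]; exact (Nat.pow_lt_pow_iff_right hp.one_lt).symm
  have hcore := num_core h hp hi hj hs ht
  -- `j ≤ i`: the alternatives
  have hge : j ≤ i → m = 2 * (s * t + 1) ∨ m = 2 * (s + 1) ∨ (s = 8 ∧ t = 8 ∧ m = 90) := by
    intro hij
    have hts : t ≤ s := by
      by_contra hh
      have := hlt.2 (not_le.1 hh)
      omega
    rcases hcore with ⟨h1, -⟩ | ⟨h1, -⟩ | h1 | ⟨h1, h2, -⟩ | ⟨h1, h2, -⟩ | ⟨h1, h2, -⟩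
    · exact Or.inl h1
    · exact Or.inr (Or.inl h1)
    · exact Or.inr (Or.inr h1)
    all_goals omega
  have h88 : s = 8 ∧ t = 8 ∧ m = 90 → (n, k, l, m) = (3914, 585, 72, 90) := by
    rintro ⟨rfl, rfl, h3⟩
    exact h.eq (r := 3328) h3 (by norm_num) (by norm_num) (by norm_num) (by norm_num)
  refine ⟨?_, ?_, ?_, ?_, ?_⟩
  · intro hij
    have hst := hlt.1 hij
    rcases hcore with ⟨h1, h2 | ⟨h2, h3⟩ | ⟨h2, h3⟩⟩ | ⟨h1, h2⟩ | ⟨h1, h2, -⟩ | ⟨h1, h2, h3⟩ |
      ⟨h1, h2, h3⟩ | ⟨h1, h2, h3⟩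
    · omega
    · right; left
      subst h2 h3
      exact h.eq (r := 162) h1 (by norm_num) (by norm_num) (by norm_num) (by norm_num)
    · right; right; left
      subst h2 h3
      exact h.eq (r := 320) h1 (by norm_num) (by norm_num) (by norm_num) (by norm_num)
    · omega
    · omega
    · right; right; right; left
      subst h1 h2
      exact h.eq (r := 704) h3 (by norm_num) (by norm_num) (by norm_num) (by norm_num)
    · right; right; right; right
      subst h1 h2
      exact h.eq (r := 233472) h3 (by norm_num) (by norm_num) (by norm_num) (by norm_num)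
    · left
      subst h1 h2
      exact h.eq (r := 36) h3 (by norm_num) (by norm_num) (by norm_num) (by norm_num)
  · intro hij
    rcases hge hij with h1 | h1 | h1
    · exact Or.inl ⟨h1, h.dvd_ext (by omega) (by omega) h1⟩
    · exact Or.inr (Or.inl ⟨h1, h.dvd_low' (by omega) h1⟩)
    · exact Or.inr (Or.inr (h88 h1))
  · intro hij
    obtain ⟨r, rfl, rfl⟩ : ∃ r, i = 3 * r ∧ j = 2 * r := ⟨i / 3, by omega, by omega⟩
    have hq : 2 ≤ p ^ r := by
      calc 2 ≤ p := hp.two_le
        _ = p ^ 1 := (pow_one p).symm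
        _ ≤ p ^ r := Nat.pow_le_pow_right hp.pos (by omega)
    have hsq : s = (p ^ r) ^ 3 := by rw [hs, ← pow_mul, mul_comm]
    have htq : t = (p ^ r) ^ 2 := by rw [ht, ← pow_mul, mul_comm]
    generalize p ^ r = q at hq hsq htq
    rcases hge (by omega) with h1 | h1 | ⟨h1, h2, h3⟩
    · have h2 := mult_ext (by omega) (by omega) h.hk h.hab h.hma h.hf h1
      rw [hsq, htq] at h2
      have h3 := fam_cube_ext hq h2
      subst h3
      norm_num at hsq htq
      clear hs ht
      subst hsq htq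
      exact h.eq (r := 1152) h1 (by norm_num) (by norm_num) (by norm_num) (by norm_num)
    · exfalso
      have h2 := mult_low (by omega) (by omega) h.hk h.hab h.hma h.hf h1
      rw [hsq, htq] at h2
      have h3 := fam_cube_low hq h2
      subst h3
      norm_num at hsq htq
      clear hs ht
      subst hsq htq
      exact fam_cube_low3 h.hk h.hn h1 h.hblock
    · exfalso
      have h4 : q = 2 := by
        have : q ^ 3 = 2 ^ 3 := by omega
        exact Nat.pow_left_injective (by norm_num) this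
      subst h4
      norm_num at htq
      omega
  · intro hij
    have hst : s = t ^ 2 := by rw [hs, ht, ← pow_mul, hij, mul_comm]
    rcases hge (by omega) with h1 | h1 | ⟨h1, h2, h3⟩
    · exact Or.inl h1
    · right
      rcases fam_sq hst ht2 h.hk h.hn h1 h.hblock with h2 | h2
      · left
        subst h2
        norm_num at hst
        clear hs ht
        subst hst
        exact h.eq (r := 144) h1 (by norm_num) (by norm_num) (by norm_num) (by norm_num)
      · right
        subst h2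
        norm_num at hst
        clear hs ht
        subst hst
        exact h.eq (r := 196875) h1 (by norm_num) (by norm_num) (by norm_num) (by norm_num)
    · exfalso
      subst h2
      norm_num at hst
      omega
  · intro hij
    have hst : s = t := by rw [hs, ht, hij]
    rcases hge (by omega) with h1 | h1 | h1
    · exact Or.inl h1
    · right
      have h5 := fam_eq hst hp hj ht h.hk h.hn h1 h.hblock
      clear hs ht
      rcases h5 with h2 | h2 | h2 | h2 | h2 <;> subst h2 <;> subst hst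
      · left
        exact h.eq (r := 20) h1 (by norm_num) (by norm_num) (by norm_num) (by norm_num)
      · right; left
        exact h.eq (r := 135) h1 (by norm_num) (by norm_num) (by norm_num) (by norm_num)
      · right; right; left
        exact h.eq (r := 544) h1 (by norm_num) (by norm_num) (by norm_num) (by norm_num)
      · right; right; right; right; left
        exact h.eq (r := 16640) h1 (by norm_num) (by norm_num) (by norm_num) (by norm_num)
      · right; right; right; right; right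
        exact h.eq (r := 186745) h1 (by norm_num) (by norm_num) (by norm_num) (by norm_num)
    · right; right; right; right; left
      exact h88 h1

end Pool.Agent.MP3c1a32
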