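import Pool.Agent.Lib.MP_3c1a32_co.Defs

/-! MP_3c1a32_co: counting in a generalized quadrangle -/

namespace Pool.Agent.MP3c1a32

namespace IsGQ

variable {P L : Type*} {I : P → L → Prop} {s t : ℕ} [Finite P]

omit [Finite P] in
/-- two lines with two common points are equal -/
theorem line_eq (h : IsGQ I s t) {l m : L} {p q : P} (hne : p ≠ q) (h1 : I p l) (h2 : I p m)
    (h3 : I q l) (h4 : I q m) : l = m := by
  by_contra hlm
  exact hne (h.unique l m hlm p q h1 h2 h3 h4)

/-- a point is collinear with `s (t + 1)` other points -/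
theorem coll_card (h : IsGQ I s t) (p : P) :
    {q | (collinearity I).Adj p q}.ncard = s * (t + 1) := by
  classical
  have := Fintype.ofFinite P
  have hfin : {l | I p l}.Finite := Set.finite_of_ncard_ne_zero (by rw [h.point_card]; omega)
  have e : {q | (collinearity I).Adj p q} =
      ((hfin.toFinset.biUnion fun l => Finset.univ.filter fun q => I q l ∧ q ≠ p : Finset P) :
        Set P) := by
    ext q
    simp only [collinearity, Set.mem_ofPred_eq, Finset.coe_biUnion, Set.Finite.coe_toFinset,
      Finset.coe_filter, Finset.mem_univ, true_and, Set.mem_iUnion, exists_prop]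
    constructor
    · rintro ⟨hne, l, hp, hq⟩
      exact ⟨l, hp, hq, hne.symm⟩
    · rintro ⟨l, hp, hq, hne⟩
      exact ⟨Ne.symm hne, l, hp, hq⟩
  rw [e, Set.ncard_coe_finset, Finset.card_biUnion, Finset.sum_const_nat (m := s)]
  · have : hfin.toFinset.card = t + 1 := by
      rw [← h.point_card p, Set.ncard_eq_toFinset_card _ hfin]
    rw [this, mul_comm]
  · intro l hl
    have hpl : I p l := by simpa using hl
    have e2 : ((Finset.univ.filter fun q => I q l ∧ q ≠ p : Finset P) : Set P) =
        {q | I q l} \ {p} := by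
      ext q; simp
    rw [← Set.ncard_coe_finset, e2, Set.ncard_sdiff_singleton_of_mem (by exact hpl), h.line_card]
    omega
  · intro l hl m hm hlm
    have hpl : I p l := by simpa using hl
    have hpm : I p m := by simpa using hm
    rw [Function.onFun, Finset.disjoint_left]
    intro q hq hq'
    simp only [Finset.mem_filter, Finset.mem_univ, true_and] at hq hq'
    exact hq.2 (h.unique l m hlm q p hq.1 hq'.1 hpl hpm)

/-- two collinear points have `s - 1` common neighbours -/
theorem adj_card (h : IsGQ I s t) {p q : P} (hpq : (collinearity I).Adj p q) :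
    {r | (collinearity I).Adj p r ∧ (collinearity I).Adj q r}.ncard = s - 1 := by
  classical
  obtain ⟨hne, l, hp, hq⟩ := hpq
  have e : {r | (collinearity I).Adj p r ∧ (collinearity I).Adj q r} =
      ({r | I r l} \ {p}) \ {q} := by
    ext r
    simp only [collinearity, Set.mem_ofPred_eq, Set.mem_sdiff, Set.mem_singleton_iff]
    constructor
    · rintro ⟨⟨hpr, m, h1, h2⟩, hqr, k, h3, h4⟩
      refine ⟨⟨?_, fun e => hpr e.symm⟩, fun e => hqr e.symm⟩
      by_contra hr
      obtain ⟨x, -, hx⟩ := h.proj r l hr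
      have hm := hx m ⟨h2, p, h1, hp⟩
      have hk := hx k ⟨h4, q, h3, hq⟩
      have hmk : m = k := hm.trans hk.symm
      subst hmk
      have := h.line_eq hne h1 hp h3 hq
      subst this
      exact hr h2
    · rintro ⟨⟨hr, h1⟩, h2⟩
      exact ⟨⟨fun e => h1 e.symm, l, hp, hr⟩, fun e => h2 e.symm, l, hq, hr⟩
  rw [e, Set.ncard_sdiff_singleton_of_mem, Set.ncard_sdiff_singleton_of_mem (by exact hp),
    h.line_card]
  · omega
  · exact ⟨hq, fun e => hne e.symm⟩

/-- two points that are not collinear have `t + 1` common neighbours -/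
theorem nonadj_card (h : IsGQ I s t) {p q : P} (hne : p ≠ q)
    (hpq : ¬ (collinearity I).Adj p q) :
    {r | (collinearity I).Adj p r ∧ (collinearity I).Adj q r}.ncard = t + 1 := by
  classical
  have hno : ∀ l, I p l → ¬ I q l := fun l h1 h2 => hpq ⟨hne, l, h1, h2⟩
  obtain ⟨l0, -⟩ := Set.nonempty_of_ncard_ne_zero (s := {l | I p l})
    (by rw [h.point_card]; omega)
  have : Nonempty L := ⟨l0⟩
  rw [← h.point_card p]
  have hl : ∀ r ∈ {r | (collinearity I).Adj p r ∧ (collinearity I).Adj q r},
      ∃ l, I p l ∧ I r l := fun r hr => hr.1.2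
  choose! g hg using hl
  refine Set.ncard_congr (fun r _ => g r) (fun r hr => (hg r hr).1) ?_ ?_
  · intro a b ha hb hab
    by_contra hab'
    obtain ⟨ha1, ha2⟩ := hg a ha
    obtain ⟨hb1, hb2⟩ := hg b hb
    rw [← show g a = g b from hab] at hb1 hb2
    obtain ⟨-, k, hk1, hk2⟩ := ha.2
    obtain ⟨-, m, hm1, hm2⟩ := hb.2
    obtain ⟨x, -, hx⟩ := h.proj q (g a) (hno _ ha1)
    have e1 := hx k ⟨hk1, a, hk2, ha2⟩
    have e2 := hx m ⟨hm1, b, hm2, hb2⟩
    have e3 : k = m := e1.trans e2.symm
    subst e3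
    have e4 := h.line_eq hab' hk2 ha2 hm2 hb2
    exact hno _ ha1 (e4 ▸ hk1)
  · intro m hm
    obtain ⟨k, ⟨hk1, r, hr1, hr2⟩, -⟩ := h.proj q m (hno m hm)
    have hpr : p ≠ r := by
      rintro rfl
      exact hno k hr1 hk1
    have hqr : q ≠ r := by
      rintro rfl
      exact hno m hm hr2
    have hr : r ∈ {r | (collinearity I).Adj p r ∧ (collinearity I).Adj q r} :=
      ⟨⟨hpr, m, hm, hr2⟩, hqr, k, hk1, hr1⟩
    exact ⟨r, hr, h.line_eq hpr (hg r hr).1 hm (hg r hr).2 hr2⟩

end IsGQ

end Pool.Agent.MP3c1a32
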