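import Pool.Agent.Lib.MP_3c1a32_co.Defs

/-! MP_3c1a32_co: cliques in a generalized quadrangle -/

namespace Pool.Agent.MP3c1a32

namespace IsGQ

variable {P L : Type*} {I : P → L → Prop} {s t : ℕ} [Finite P]

omit [Finite P] in
/-- there are no triangles: a point collinear with two points of a line is on the line -/
theorem mem_line (h : IsGQ I s t) {p q r : P} {l : L} (hp : I p l) (hq : I q l) (hpq : p ≠ q)
    (hrp : (collinearity I).Adj r p) (hrq : (collinearity I).Adj r q) : I r l := by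
  by_contra hr
  obtain ⟨-, m1, hr1, hp1⟩ := hrp
  obtain ⟨-, m2, hr2, hq2⟩ := hrq
  have e : m1 = m2 := (h.proj r l hr).unique ⟨hr1, p, hp1, hp⟩ ⟨hr2, q, hq2, hq⟩
  subst e
  by_cases hl : m1 = l
  · exact hr (hl ▸ hr1)
  · exact hpq (h.unique m1 l hl p q hp1 hp hq2 hq)

/-- a point outside a clique with `s + 1` points is collinear with at most one of its points -/
theorem clique (h : IsGQ I s t) (hs : 1 ≤ s) {K : Set P}
    (hK : ∀ p ∈ K, ∀ q ∈ K, p ≠ q → (collinearity I).Adj p q) (hc : K.ncard = s + 1) {r p q : P}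
    (hr : r ∉ K) (hp : p ∈ K) (hq : q ∈ K) (hrp : (collinearity I).Adj r p)
    (hrq : (collinearity I).Adj r q) : p = q := by
  by_contra hne
  obtain ⟨-, l, hpl, hql⟩ := hK p hp q hq hne
  have hsub : K ⊆ {x | I x l} := by
    intro x hx
    show I x l
    by_cases h1 : x = p
    · rw [h1]; exact hpl
    by_cases h2 : x = q
    · rw [h2]; exact hql
    exact h.mem_line hpl hql hne (hK x hx p hp h1) (hK x hx q hq h2)
  have heq : K = {x | I x l} := by
    apply Set.eq_of_subset_of_ncard_le hsub _ (Set.toFinite _)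
    rw [h.line_card l, hc]
  apply hr
  rw [heq]
  exact h.mem_line hpl hql hne hrp hrq

/-- the points of a line -/
theorem exists_clique (h : IsGQ I s t) (p : P) : ∃ K : Set P, p ∈ K ∧ K.ncard = s + 1 ∧
    ∀ p ∈ K, ∀ q ∈ K, p ≠ q → (collinearity I).Adj p q := by
  have h0 : {l | I p l}.ncard ≠ 0 := by
    rw [h.point_card p]; omega
  obtain ⟨l, hl⟩ := Set.nonempty_of_ncard_ne_zero h0
  exact ⟨{q | I q l}, hl, h.line_card l, fun a ha b hb hab => ⟨hab, l, ha, hb⟩⟩

end IsGQ

end Pool.Agent.MP3c1a32
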