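import Pool.Agent.Lib.MP_3c1a32_co.TrN

/-! MP_3c1a32_co: eigenvalues of strongly regular graphs -/

namespace Pool.Agent.MP3c1a32

open Matrix

section srg
variable {V : Type*} [Fintype V] [DecidableEq V] {G : SimpleGraph V} [DecidableRel G.Adj]
  {n k l m : ℕ}

/-- the real matrix `A - y - ((k - y) / n) J` -/
noncomputable def Em (G : SimpleGraph V) [DecidableRel G.Adj] (n k : ℕ) (y : ℝ) :
    Matrix V V ℝ :=
  G.adjMatrix ℝ - y • (1 : Matrix V V ℝ) - ((k - y) / n) • (Matrix.of fun _ _ => 1)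

theorem adj_sq (h : G.IsSRGWith n k l m) : G.adjMatrix ℝ * G.adjMatrix ℝ =
    ((k : ℝ) - m) • (1 : Matrix V V ℝ) + ((l : ℝ) - m) • G.adjMatrix ℝ +
      (m : ℝ) • (Matrix.of fun _ _ => 1) := by
  have h1 := h.matrix_eq (α := ℝ)
  rw [pow_two, ← Nat.cast_smul_eq_nsmul ℝ k, ← Nat.cast_smul_eq_nsmul ℝ l,
    ← Nat.cast_smul_eq_nsmul ℝ m] at h1
  rw [h1]
  ext v w
  simp only [Matrix.add_apply, Matrix.smul_apply, SimpleGraph.adjMatrix_apply,
    SimpleGraph.compl_adj, Matrix.of_apply, smul_eq_mul, Matrix.one_apply]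
  by_cases hvw : v = w
  · subst hvw; simp
  · by_cases ha : G.Adj v w
    · simp [hvw, ha]
    · simp [hvw, ha]

omit [DecidableEq V] in
theorem adj_J (h : G.IsSRGWith n k l m) :
    G.adjMatrix ℝ * (Matrix.of fun _ _ => 1) = (k : ℝ) • (Matrix.of fun _ _ => 1) := by
  ext v w
  rw [SimpleGraph.adjMatrix_mul_apply]
  simp [h.regular v]

omit [DecidableEq V] in
theorem J_adj (h : G.IsSRGWith n k l m) :
    (Matrix.of fun _ _ => 1) * G.adjMatrix ℝ = (k : ℝ) • (Matrix.of fun _ _ => 1) := by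
  ext v w
  rw [SimpleGraph.mul_adjMatrix_apply]
  simp [h.regular w]

omit [DecidableEq V] in
theorem J_J (h : G.IsSRGWith n k l m) :
    (Matrix.of fun _ _ => 1 : Matrix V V ℝ) * (Matrix.of fun _ _ => 1) =
      (n : ℝ) • (Matrix.of fun _ _ => 1) := by
  ext v w
  simp [Matrix.mul_apply, h.card]

/-- `n m = (k - x) (k - y)` -/
theorem srg_prod (h : G.IsSRGWith n k l m) (hn : 0 < n) {x y : ℝ} (hx : x * y = m - k)
    (hs : x + y = l - m) : (n : ℝ) * m = (k - x) * (k - y) := by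
  have hV : 0 < Fintype.card V := by rw [h.card]; exact hn
  obtain ⟨v⟩ := Fintype.card_pos_iff.1 hV
  have h1 : G.adjMatrix ℝ * (G.adjMatrix ℝ * (Matrix.of fun _ _ => 1)) =
      (G.adjMatrix ℝ * G.adjMatrix ℝ) * (Matrix.of fun _ _ => 1) := (Matrix.mul_assoc _ _ _).symm
  rw [adj_J h, adj_sq h, Matrix.mul_smul, adj_J h, add_mul, add_mul, smul_mul_assoc,
    smul_mul_assoc, smul_mul_assoc, one_mul, adj_J h, J_J h] at h1
  have h2 := congrFun (congrFun h1 v) v
  simp only [Matrix.add_apply, Matrix.smul_apply, Matrix.of_apply, smul_eq_mul, mul_one] at h2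
  linear_combination (-1 : ℝ) * h2 + (k : ℝ) * hs - hx

/-- `Em y` is an idempotent up to the factor `x - y` -/
theorem Em_sq (h : G.IsSRGWith n k l m) (hn : 0 < n) {x y : ℝ} (hx : x * y = m - k)
    (hs : x + y = l - m) : Em G n k y * Em G n k y = (x - y) • Em G n k y := by
  have hn' : (n : ℝ) ≠ 0 := by positivity
  have hp := srg_prod h hn hx hs
  have hc : (m : ℝ) - 2 * ((k - y) / n) * (k - y) + ((k - y) / n) ^ 2 * n =
      -(x - y) * ((k - y) / n) := by
    field_simp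
    linear_combination hp
  set c : ℝ := (k - y) / n with hcd
  have e : Em G n k y * Em G n k y = G.adjMatrix ℝ * G.adjMatrix ℝ
      - (2 * y) • G.adjMatrix ℝ + (y ^ 2) • (1 : Matrix V V ℝ)
      - c • (G.adjMatrix ℝ * (Matrix.of fun _ _ => 1))
      - c • ((Matrix.of fun _ _ => 1) * G.adjMatrix ℝ)
      + (2 * y * c) • (Matrix.of fun _ _ => 1)
      + (c ^ 2) • ((Matrix.of fun _ _ => 1 : Matrix V V ℝ) * (Matrix.of fun _ _ => 1)) := by
    unfold Em
    rw [← hcd]
    simp only [sub_mul, mul_sub, smul_mul_assoc, mul_smul_comm, one_mul, mul_one]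
    module
  rw [e, adj_sq h, adj_J h, J_adj h, J_J h]
  unfold Em
  rw [← hcd]
  ext v w
  simp only [Matrix.add_apply, Matrix.sub_apply, Matrix.smul_apply, Matrix.of_apply, smul_eq_mul,
    mul_one]
  linear_combination hc + (1 : Matrix V V ℝ) v w * hx - G.adjMatrix ℝ v w * hs

theorem Em_trace (h : G.IsSRGWith n k l m) (hn : 0 < n) (y : ℝ) :
    (Em G n k y).trace = - y * (n - 1) - k := by
  have hn' : (n : ℝ) ≠ 0 := by positivity
  have hJ : (Matrix.of fun _ _ => 1 : Matrix V V ℝ).trace = n := by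
    simp [Matrix.trace, h.card]
  unfold Em
  rw [Matrix.trace_sub, Matrix.trace_sub, Matrix.trace_smul, Matrix.trace_smul, hJ,
    Matrix.trace_one, h.card, SimpleGraph.trace_adjMatrix, smul_eq_mul, smul_eq_mul]
  field_simp
  ring

/-- the multiplicity of the eigenvalue `x` is a natural number -/
theorem mult_nat (h : G.IsSRGWith n k l m) (hn : 0 < n) {x y : ℝ} (hx : x * y = m - k)
    (hs : x + y = l - m) (hne : x ≠ y) : ∃ f : ℕ, (x - y) * f = - y * (n - 1) - k := by
  have hxy : x - y ≠ 0 := sub_ne_zero.2 hne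
  obtain ⟨f, hf⟩ := trace_nat ((x - y)⁻¹ • Em G n k y) (by
    rw [smul_mul_assoc, mul_smul_comm, Em_sq h hn hx hs, smul_smul, smul_smul,
      mul_assoc, inv_mul_cancel₀ hxy, mul_one])
  refine ⟨f, ?_⟩
  rw [← hf, Matrix.trace_smul, smul_eq_mul, ← mul_assoc, mul_inv_cancel₀ hxy, one_mul,
    Em_trace h hn]

end srg

end Pool.Agent.MP3c1a32
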