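import Pool.Agent.Lib.MP_3c1a32_co.GQ
import Pool.Agent.Lib.MP_3c1a32_co.Spec

/-! MP_3c1a32_co: the divisibility condition for a generalized quadrangle -/

namespace Pool.Agent.MP3c1a32

/-- the collinearity graph is strongly regular -/
theorem IsGQ.srg {P L : Type*} {I : P → L → Prop} {s t : ℕ} [Fintype P]
    [DecidableRel (collinearity I).Adj] (h : IsGQ I s t) :
    (collinearity I).IsSRGWith (Fintype.card P) (s * (t + 1)) (s - 1) (t + 1) := by
  classical
  refine ⟨rfl, ?_, ?_, ?_⟩
  · intro v
    have h1 := h.coll_card v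
    rw [← h1, ← SimpleGraph.card_neighborSet_eq_degree, ← Nat.card_eq_fintype_card,
      Nat.card_coe_set_eq]
    rfl
  · intro v w hvw
    have h1 := h.adj_card hvw
    rw [← h1, ← Nat.card_eq_fintype_card, Nat.card_coe_set_eq]
    rfl
  · intro v w hne hvw
    have h1 := h.nonadj_card hne hvw
    rw [← h1, ← Nat.card_eq_fintype_card, Nat.card_coe_set_eq]
    rfl

/-- the number of points -/
theorem IsGQ.card {P L : Type*} {I : P → L → Prop} {s t : ℕ} [Finite P] [Nonempty P]
    (h : IsGQ I s t) : Nat.card P = (s + 1) * (s * t + 1) := by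
  classical
  have := Fintype.ofFinite P
  rw [Nat.card_eq_fintype_card]
  rcases Nat.eq_zero_or_pos s with h0 | h0
  · subst h0
    have hsub : Subsingleton P := by
      refine ⟨fun p q => ?_⟩
      by_contra hne
      have hadj : ∀ a b : P, ¬ (collinearity I).Adj a b := by
        intro a b hab
        have h1 := h.coll_card a
        rw [Nat.zero_mul, Set.ncard_eq_zero (Set.toFinite _)] at h1
        have h2 : b ∈ {q | (collinearity I).Adj a q} := hab
        rw [h1] at h2
        exact h2
      have h1 := h.nonadj_card hne (hadj p q)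
      have h2 : {r | (collinearity I).Adj p r ∧ (collinearity I).Adj q r} = ∅ := by
        ext r
        simp [hadj]
      rw [h2, Set.ncard_empty] at h1
      omega
    rw [Fintype.card_eq_one_iff_nonempty_unique.2 ⟨⟨⟨Classical.arbitrary P⟩,
      fun a => Subsingleton.elim _ _⟩⟩]
    ring
  · have hs := h.srg
    have hpos : 0 < Fintype.card P := Fintype.card_pos
    have h1 := hs.param_eq _ hpos
    obtain ⟨v⟩ := (inferInstance : Nonempty P)
    have h2 : (collinearity I).degree v < Fintype.card P :=
      (collinearity I).degree_lt_card_verts v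
    rw [hs.regular v] at h2
    have h3 : s * (t + 1) - (s - 1) - 1 = s * t := by
      have e1 : s * (t + 1) = s * t + s := by ring
      rw [e1]
      omega
    rw [h3] at h1
    have h4 : s * s * t = Fintype.card P - s * (t + 1) - 1 := by
      have e2 : (s * s * t) * (t + 1) = (Fintype.card P - s * (t + 1) - 1) * (t + 1) := by
        rw [← h1]; ring
      exact Nat.eq_of_mul_eq_mul_right (Nat.succ_pos t) e2
    have h5 : Fintype.card P = s * s * t + s * (t + 1) + 1 := by omega
    rw [h5]
    ring

/-- the divisibility condition for a `GQ(s,t)` -/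
theorem IsGQ.dvd {P L : Type*} {I : P → L → Prop} {s t : ℕ} [Finite P] [Nonempty P]
    (h : IsGQ I s t) (hs : 1 ≤ s) : (s + t) ∣ s * t * (s + 1) * (t + 1) := by
  classical
  have := Fintype.ofFinite P
  have hsrg := h.srg
  have hpos : 0 < Fintype.card P := Fintype.card_pos
  have hcard : Fintype.card P = (s + 1) * (s * t + 1) := by
    rw [← Nat.card_eq_fintype_card]; exact h.card
  have hc1 : ((s - 1 : ℕ) : ℝ) = (s : ℝ) - 1 := by
    rw [Nat.cast_sub hs]; simp
  obtain ⟨f, hf⟩ := mult_nat hsrg hpos (x := (s : ℝ) - 1) (y := -(t : ℝ) - 1)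
    (by push_cast; ring) (by rw [hc1]; push_cast; ring)
    (by
      intro he
      have h1 : (1 : ℝ) ≤ s := by exact_mod_cast hs
      have h2 : (0 : ℝ) ≤ t := Nat.cast_nonneg t
      linarith)
  refine ⟨f, ?_⟩
  have h3 : ((s * t * (s + 1) * (t + 1) : ℕ) : ℝ) = (((s + t) * f : ℕ) : ℝ) := by
    have h4 : (Fintype.card P : ℝ) = ((s : ℝ) + 1) * (s * t + 1) := by
      rw [hcard]; push_cast; ring
    rw [h4] at hf
    push_cast at hf ⊢
    linear_combination -hf
  exact_mod_cast h3

end Pool.Agent.MP3c1a32
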