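import Pool.Agent.Lib.MP_3c1a32_co.Spec

/-! MP_3c1a32_co: Krein's condition for a strongly regular graph -/

namespace Pool.Agent.MP3c1a32

variable {V : Type*} [Fintype V] [DecidableEq V] {G : SimpleGraph V} [DecidableRel G.Adj]
  {n k l m : ℕ}

theorem Em_apply (x : ℝ) (u w : V) : Em G n k x u w =
    G.adjMatrix ℝ u w - (if u = w then x else 0) - (k - x) / n := by
  simp only [Em, Matrix.sub_apply, Matrix.smul_apply, Matrix.one_apply, Matrix.of_apply,
    smul_eq_mul, mul_ite, mul_one, mul_zero]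

theorem Em_symm (x : ℝ) (u w : V) : Em G n k x u w = Em G n k x w u := by
  rw [Em_apply, Em_apply, (SimpleGraph.isSymm_adjMatrix G).apply u w]
  by_cases h : u = w
  · rw [if_pos h, if_pos h.symm]
  · rw [if_neg h, if_neg (Ne.symm h)]

/-- The columns of `Em` have sum `0`. -/
theorem sum_Em (h : G.IsSRGWith n k l m) (hn : 0 < n) (x : ℝ) (z : V) :
    ∑ w, Em G n k x w z = 0 := by
  have hn' : (n : ℝ) ≠ 0 := by exact_mod_cast hn.ne'
  have h1 : ∑ w, G.adjMatrix ℝ w z = k := by
    have h2 := G.adjMatrix_mulVec_const_apply (α := ℝ) (a := 1) (v := z)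
    rw [mul_one, h.regular.degree_eq] at h2
    rw [← h2, Matrix.mulVec, dotProduct]
    refine Finset.sum_congr rfl fun w _ => ?_
    rw [(SimpleGraph.isSymm_adjMatrix G).apply z w]
    simp
  have hcard : (Fintype.card V : ℝ) = n := by exact_mod_cast h.card
  simp only [Em_apply]
  rw [Finset.sum_sub_distrib, Finset.sum_sub_distrib, h1, Finset.sum_ite_eq' ,
    if_pos (Finset.mem_univ z), Finset.sum_const, Finset.card_univ, nsmul_eq_mul, hcard]
  field_simp
  ring

/-- The columns of `Em x` are eigenvectors of `A` with the eigenvalue `y`. -/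
theorem adj_Em (h : G.IsSRGWith n k l m) (hn : 0 < n) {x y : ℝ}
    (hx : x * y = m - k) (hs : x + y = l - m) (u z : V) :
    ∑ w, G.adjMatrix ℝ u w * Em G n k x w z = y * Em G n k x u z := by
  have h1 := congrFun (congrFun (Em_sq h hn (x := y) (y := x) (by rw [mul_comm]; exact hx)
    (by rw [add_comm]; exact hs)) u) z
  rw [Matrix.mul_apply, Matrix.smul_apply, smul_eq_mul] at h1
  have h2 : ∑ w, Em G n k x u w * Em G n k x w z =
      ∑ w, G.adjMatrix ℝ u w * Em G n k x w z - x * Em G n k x u z := by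
    have h3 : ∀ w, Em G n k x u w * Em G n k x w z = G.adjMatrix ℝ u w * Em G n k x w z -
        (if u = w then x * Em G n k x w z else 0) - (k - x) / n * Em G n k x w z := by
      intro w
      rw [Em_apply x u w]
      split_ifs <;> ring
    simp only [h3]
    rw [Finset.sum_sub_distrib, Finset.sum_sub_distrib, ← Finset.mul_sum, sum_Em h hn,
      Finset.sum_ite_eq, if_pos (Finset.mem_univ u)]
    ring
  rw [h2] at h1
  linear_combination h1

/-- Krein's condition -/
theorem krein (h : G.IsSRGWith n k l m) (hn : 0 < n) (hk : 0 < k) {x y : ℝ}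
    (hx : x * y = m - k) (hs : x + y = l - m) (hxy : y < x) (hx0 : 0 ≤ x) :
    0 ≤ n * (x ^ 2 + y) + 2 * (k - x) * (x - y) := by
  have hn' : (0 : ℝ) < n := by exact_mod_cast hn
  -- the Hadamard square is positive semidefinite
  have hM : (Em G n k x).IsHermitian := by
    ext u w
    simp only [Matrix.conjTranspose_apply, star_trivial]
    exact Em_symm x w u
  have h1 : ((y - x) • Em G n k x).PosSemidef := by
    rw [← Em_sq h hn (x := y) (y := x) (by rw [mul_comm]; exact hx)
      (by rw [add_comm]; exact hs)]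
    have h2 := Matrix.posSemidef_conjTranspose_mul_self (Em G n k x)
    rwa [hM.eq] at h2
  have h2 := h1.hadamard h1
  -- a vertex and a nonzero column
  obtain ⟨z, u₀, hz⟩ : ∃ z u₀, Em G n k x u₀ z ≠ 0 := by
    by_contra hcon
    push_neg at hcon
    have hV : Nonempty V := by
      rw [← Fintype.card_pos_iff, h.card]
      exact hn
    obtain ⟨z⟩ := hV
    have hdeg : 0 < G.degree z := by rw [h.regular.degree_eq]; exact hk
    obtain ⟨w, hw⟩ := (G.degree_pos_iff_exists_adj z).1 hdeg
    have h3 := hcon z z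
    have h4 := hcon w z
    rw [Em_apply] at h3 h4
    rw [if_pos rfl, SimpleGraph.adjMatrix_apply, if_neg (G.loopless.irrefl z)] at h3
    rw [if_neg hw.ne, SimpleGraph.adjMatrix_apply, if_pos hw] at h4
    linarith
  set v : V → ℝ := fun w => Em G n k x w z with hv
  have h3 : ∀ u, ∑ w, (Em G n k x u w) ^ 2 * v w =
      (x ^ 2 + y + 2 * ((k - x) / n) * (x - y)) * v u := by
    intro u
    have e1 : ∀ w, (Em G n k x u w) ^ 2 * v w = (1 - 2 * ((k - x) / n)) *
        (G.adjMatrix ℝ u w * v w) + (if u = w then (x ^ 2 + 2 * x * ((k - x) / n)) * v w else 0) +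
        ((k - x) / n) ^ 2 * v w := by
      intro w
      rw [Em_apply x u w]
      by_cases huw : u = w
      · subst huw
        rw [if_pos rfl, if_pos rfl, SimpleGraph.adjMatrix_apply, if_neg (G.loopless.irrefl u)]
        ring
      · rw [if_neg huw, if_neg huw, SimpleGraph.adjMatrix_apply]
        split_ifs <;> ring
    simp only [e1]
    rw [Finset.sum_add_distrib, Finset.sum_add_distrib, ← Finset.mul_sum, ← Finset.mul_sum,
      hv, adj_Em h hn hx hs, sum_Em h hn, Finset.sum_ite_eq, if_pos (Finset.mem_univ u)]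
    ring
  have h4 := h2.dotProduct_mulVec_nonneg v
  have h5 : star v ⬝ᵥ (((y - x) • Em G n k x).hadamard ((y - x) • Em G n k x)).mulVec v =
      (y - x) ^ 2 * ((x ^ 2 + y + 2 * ((k - x) / n) * (x - y)) * ∑ u, v u ^ 2) := by
    simp only [dotProduct, Matrix.mulVec, Matrix.hadamard_apply, Matrix.smul_apply, smul_eq_mul,
      Pi.star_apply, star_trivial]
    rw [Finset.mul_sum, Finset.mul_sum]
    refine Finset.sum_congr rfl fun u _ => ?_
    have e2 : ∑ w, (y - x) * Em G n k x u w * ((y - x) * Em G n k x u w) * v w =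
        (y - x) ^ 2 * ∑ w, (Em G n k x u w) ^ 2 * v w := by
      rw [Finset.mul_sum]
      exact Finset.sum_congr rfl fun w _ => by ring
    rw [e2, h3 u]
    ring
  rw [h5] at h4
  have h6 : 0 < ∑ u, v u ^ 2 := by
    refine Finset.sum_pos' (fun _ _ => sq_nonneg _) ⟨u₀, Finset.mem_univ _, ?_⟩
    exact sq_pos_of_ne_zero hz
  have h7 : 0 < (y - x) ^ 2 := by
    have : y - x ≠ 0 := (sub_neg.2 hxy).ne
    positivity
  have h8 : 0 ≤ x ^ 2 + y + 2 * ((k - x) / n) * (x - y) := by
    by_contra hneg
    push_neg at hneg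
    have : (y - x) ^ 2 * ((x ^ 2 + y + 2 * ((k - x) / n) * (x - y)) * ∑ u, v u ^ 2) < 0 :=
      mul_neg_of_pos_of_neg h7 (mul_neg_of_neg_of_pos hneg h6)
    linarith
  have h9 := mul_nonneg hn'.le h8
  have h10 : (n : ℝ) * (x ^ 2 + y + 2 * ((k - x) / n) * (x - y)) =
      n * (x ^ 2 + y) + 2 * (k - x) * (x - y) := by
    field_simp
  rw [h10] at h9
  exact h9

end Pool.Agent.MP3c1a32
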