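import Pool.Agent.Lib.MP_3c1a32_co.Count

/-! MP_3c1a32_co: the lower bound for `μ` -/

namespace Pool.Agent.MP3c1a32

variable {V : Type} [Fintype V] [DecidableEq V] {G : SimpleGraph V} [DecidableRel G.Adj]
  {n k l m s t : ℕ}

/-- a pair of distinct vertices which are not adjacent -/
theorem exists_nonadj (h : G.IsSRGWith n k l m) (x : V) (hn : k + 1 < n) :
    ∃ y, x ≠ y ∧ ¬ G.Adj x y := by
  by_contra hcon
  push Not at hcon
  have h1 : Fintype.card V ≤ G.degree x + 1 := by
    have h2 : (Finset.univ : Finset V) ⊆ insert x (G.neighborFinset x) := by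
      intro y _
      rw [Finset.mem_insert, SimpleGraph.mem_neighborFinset]
      by_cases hy : y = x
      · exact Or.inl hy
      · exact Or.inr (hcon y (Ne.symm hy))
    calc Fintype.card V = (Finset.univ : Finset V).card := (Finset.card_univ).symm
      _ ≤ _ := Finset.card_le_card h2
      _ ≤ _ := by
        rw [← SimpleGraph.card_neighborFinset_eq_degree]
        exact Finset.card_insert_le _ _
  rw [h.card, h.regular x] at h1
  omega

/-- variance of the number of common neighbours -/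
theorem le_mu (h : G.IsSRGWith n k l m) (hbot : G ≠ ⊥) (hloc : ∀ x, LocGQ G x s t)
    (hs : 1 ≤ s) (ht : 1 ≤ t) : (s + 1) * (t + 2) ≤ m + (s + 1) * s := by
  classical
  obtain ⟨hm, hmk, hkn, hp⟩ := par_n h hbot hloc hs ht
  obtain ⟨x, -, -⟩ := SimpleGraph.ne_bot_iff_exists_adj.mp hbot
  obtain ⟨hk1, hl1⟩ := par_kl h hbot (hloc x)
  have hkn' : k + 1 < n := by
    rcases Nat.lt_or_ge (k + 1) n with h1 | h1
    · exact h1
    · exfalso
      have h0 : n - k - 1 = 0 := by omega
      rw [h0, zero_mul] at hp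
      have : 0 < k * (s ^ 2 * t) := by
        have := srg_deg_pos h hbot
        positivity
      omega
  obtain ⟨y, hxy, hnadj⟩ := exists_nonadj h x hkn'
  set N := G.neighborFinset x with hN
  set H := N.filter (fun z => G.Adj y z) with hH
  have memN : ∀ z, z ∈ N ↔ G.Adj x z := fun z => by rw [hN, SimpleGraph.mem_neighborFinset]
  have memH : ∀ z, z ∈ H ↔ G.Adj x z ∧ G.Adj y z := fun z => by
    rw [hH, Finset.mem_filter, memN]
  have hNcard : N.card = k := by
    rw [hN, SimpleGraph.card_neighborFinset_eq_degree, h.regular x]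
  have hHcard : H.card = m := by
    rw [← h.of_not_adj hxy hnadj, ← Set.toFinset_card]
    congr 1
    ext z
    rw [memH, Set.mem_toFinset]
    rfl
  set a : V → V → ℤ := fun u z => if G.Adj u z then 1 else 0 with ha
  have suma : ∀ (S : Finset V) (u : V), ∑ z ∈ S, a u z = ((S.filter fun z => G.Adj u z).card : ℤ) := by
    intro S u
    rw [ha, Finset.card_filter]
    push_cast
    rfl
  have hd : ∀ u ∈ H, ∑ z ∈ H, a u z = (t : ℤ) + 1 := by
    intro u hu
    obtain ⟨h1, h2⟩ := (memH u).1 hu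
    have h3 := (hloc u).nonadj_card h1.symm h2.symm hxy hnadj
    rw [suma]
    have : ((H.filter fun z => G.Adj u z) : Set V) =
        {z | G.Adj u z ∧ G.Adj x z ∧ G.Adj y z} := by
      ext z
      simp only [Finset.coe_filter, Set.mem_setOf_eq, memH]
      tauto
    rw [← Set.ncard_coe_finset, this, h3]
    push_cast
    rfl
  have hl : ∀ u ∈ H, ∑ z ∈ N, a u z = (l : ℤ) := by
    intro u hu
    obtain ⟨h1, h2⟩ := (memH u).1 hu
    have h3 := (hloc x).two_card h1
    rw [suma]
    have : ((N.filter fun z => G.Adj u z) : Set V) = {z | G.Adj x z ∧ G.Adj u z} := by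
      ext z
      simp only [Finset.coe_filter, Set.mem_setOf_eq, memN]
    rw [← Set.ncard_coe_finset, this, h3, hl1]
  have hT : ∀ u ∈ H, ∀ v ∈ H, ∑ z ∈ N, a u z * a v z =
      if u = v then (l : ℤ) else (t + 1) + (s - 1 - (t + 1)) * a u v := by
    intro u hu v hv
    obtain ⟨h1, h2⟩ := (memH u).1 hu
    obtain ⟨h3, h4⟩ := (memH v).1 hv
    have haa : ∀ z, a u z * a v z = if G.Adj u z ∧ G.Adj v z then 1 else 0 := by
      intro z
      rw [ha]
      by_cases h5 : G.Adj u z <;> by_cases h6 : G.Adj v z <;> simp [h5, h6]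
    split_ifs with huv
    · subst huv
      rw [← hl u hu]
      refine Finset.sum_congr rfl fun z _ => ?_
      rw [haa, ha]
      simp
    · have hcard : ∑ z ∈ N, a u z * a v z =
          (({z | G.Adj x z ∧ G.Adj u z ∧ G.Adj v z} : Set V).ncard : ℤ) := by
        have : (({z | G.Adj x z ∧ G.Adj u z ∧ G.Adj v z} : Set V)) =
            ((N.filter fun z => G.Adj u z ∧ G.Adj v z : Finset V) : Set V) := by
          ext z
          simp only [Finset.coe_filter, Set.mem_setOf_eq, memN]
        rw [this, Set.ncard_coe_finset, Finset.card_filter]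
        push_cast
        exact Finset.sum_congr rfl fun z _ => haa z
      rw [hcard]
      by_cases hadj : G.Adj u v
      · rw [(hloc x).adj_card h1 h3 hadj, ha]
        simp only [hadj, if_true]
        push_cast [Nat.cast_sub hs]
        ring
      · rw [(hloc x).nonadj_card h1 h3 huv hadj, ha]
        simp only [hadj, if_false]
        push_cast
        ring
  set c : V → ℤ := fun z => ∑ u ∈ H, a u z with hc
  have S1 : ∑ z ∈ N, c z = m * l := by
    rw [hc, Finset.sum_comm, Finset.sum_congr rfl hl, Finset.sum_const, hHcard, nsmul_eq_mul]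
  have asymm : ∀ u v, a u v = a v u := by
    intro u v
    rw [ha]
    simp only [G.adj_comm]
  have SH : ∑ z ∈ H, c z = m * (t + 1) := by
    rw [hc, Finset.sum_comm, Finset.sum_congr rfl hd, Finset.sum_const, hHcard, nsmul_eq_mul]
  have S2 : ∑ z ∈ N, c z ^ 2 = m * (l + (s - 1) * (t + 1) + (t + 1) * (m - t - 2)) := by
    have e1 : ∀ z, c z ^ 2 = ∑ u ∈ H, ∑ v ∈ H, a u z * a v z := by
      intro z
      rw [hc, sq, Finset.sum_mul_sum]
    simp only [e1]
    rw [Finset.sum_comm]
    have e2 : ∀ u ∈ H, ∑ z ∈ N, ∑ v ∈ H, a u z * a v z =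
        l + (s - 1) * (t + 1) + (t + 1) * (m - t - 2) := by
      intro u hu
      rw [Finset.sum_comm, Finset.sum_congr rfl (hT u hu)]
      have e3 : ∀ v ∈ H, (if u = v then (l : ℤ) else (t + 1) + (s - 1 - (t + 1)) * a u v) =
          ((t : ℤ) + 1) + (s - 1 - (t + 1)) * a u v + if u = v then ((l : ℤ) - (t + 1)) else 0 := by
        intro v _
        split_ifs with huv
        · subst huv
          rw [ha]
          simp
        · ring
      rw [Finset.sum_congr rfl e3, Finset.sum_add_distrib, Finset.sum_add_distrib,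
        Finset.sum_ite_eq, if_pos hu, Finset.sum_const, ← Finset.mul_sum, hd u hu, hHcard,
        nsmul_eq_mul]
      ring
    rw [Finset.sum_congr rfl e2, Finset.sum_const, hHcard, nsmul_eq_mul]
  set i : V → ℤ := fun z => if G.Adj y z then 1 else 0 with hi
  have SI : ∑ z ∈ N, i z = m := by
    rw [hi, ← hHcard, hH, Finset.card_filter]
    push_cast
    rfl
  have SI2 : ∑ z ∈ N, i z ^ 2 = m := by
    rw [← SI]
    refine Finset.sum_congr rfl fun z _ => ?_
    rw [hi]
    by_cases h5 : G.Adj y z <;> simp [h5]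
  have SIc : ∑ z ∈ N, i z * c z = m * (t + 1) := by
    rw [← SH, hH, Finset.sum_filter]
    refine Finset.sum_congr rfl fun z _ => ?_
    rw [hi]
    by_cases h5 : G.Adj y z <;> simp [h5]
  have hnn : 0 ≤ ∑ z ∈ N, (((s : ℤ) + 1) * c z - (s ^ 2 - 1) * i z - m) ^ 2 :=
    Finset.sum_nonneg fun z _ => sq_nonneg _
  have hexp : ∑ z ∈ N, (((s : ℤ) + 1) * c z - (s ^ 2 - 1) * i z - m) ^ 2 =
      (s + 1) ^ 2 * ∑ z ∈ N, c z ^ 2 + (s ^ 2 - 1) ^ 2 * ∑ z ∈ N, i z ^ 2 + m ^ 2 * k -
      2 * (s + 1) * (s ^ 2 - 1) * ∑ z ∈ N, i z * c z - 2 * (s + 1) * m * ∑ z ∈ N, c z +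
      2 * (s ^ 2 - 1) * m * ∑ z ∈ N, i z := by
    have hk' : (m : ℤ) ^ 2 * k = ∑ z ∈ N, (m : ℤ) ^ 2 := by
      rw [Finset.sum_const, hNcard, nsmul_eq_mul]; ring
    rw [hk', Finset.mul_sum, Finset.mul_sum, Finset.mul_sum, Finset.mul_sum, Finset.mul_sum,
      ← Finset.sum_add_distrib, ← Finset.sum_add_distrib, ← Finset.sum_sub_distrib,
      ← Finset.sum_sub_distrib, ← Finset.sum_add_distrib]
    refine Finset.sum_congr rfl fun z _ => ?_
    ring
  have hfin : (s + 1) ^ 2 * ∑ z ∈ N, c z ^ 2 + (s ^ 2 - 1) ^ 2 * ∑ z ∈ N, i z ^ 2 + m ^ 2 * k -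
      2 * (s + 1) * (s ^ 2 - 1) * ∑ z ∈ N, i z * c z - 2 * (s + 1) * m * ∑ z ∈ N, c z +
      2 * (s ^ 2 - 1) * m * ∑ z ∈ N, i z =
      ((s : ℤ) + 1) * (s + t) * m * (m + (s + 1) * (s - t - 2)) := by
    rw [S2, SI2, SIc, S1, SI]
    have hk2 : (k : ℤ) = (s + 1) * (s * t + 1) := by rw [hk1]; push_cast; ring
    have hl2 : (l : ℤ) = s * (t + 1) := by rw [hl1]; push_cast; ring
    rw [hk2, hl2]
    ring
  rw [hexp, hfin] at hnn
  have hpos : (0 : ℤ) < ((s : ℤ) + 1) * (s + t) * m := by positivity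
  have hge : (0 : ℤ) ≤ m + (s + 1) * (s - t - 2) := by
    by_contra hcon
    push Not at hcon
    have := mul_neg_of_pos_of_neg hpos hcon
    linarith
  have : ((s : ℤ) + 1) * (t + 2) ≤ m + (s + 1) * s := by linarith
  exact_mod_cast this

end Pool.Agent.MP3c1a32
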