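import Pool.Agent.Lib.MP_3c1a32_co.GQd
import Pool.Agent.Lib.MP_3c1a32_co.GQc

/-! MP_3c1a32_co: counting in a neighbourhood that is a `GQ(s,t)` -/

namespace Pool.Agent.MP3c1a32

variable {V : Type} [Fintype V] {G : SimpleGraph V} {s t : ℕ}

/-- the neighbourhood as the image of the point set of a generalized quadrangle -/
theorem LocGQ.exists_map {x : V} (h : LocGQ G x s t) :
    ∃ (P L : Type) (I : P → L → Prop) (f : P → V), IsGQ I s t ∧ Finite P ∧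
      Function.Injective f ∧ (∀ p, G.Adj x (f p)) ∧ (∀ z, G.Adj x z → ∃ p, f p = z) ∧
      ∀ p q, G.Adj (f p) (f q) ↔ (collinearity I).Adj p q := by
  obtain ⟨P, L, I, hI, ⟨e⟩⟩ := h
  refine ⟨P, L, I, fun p => (e.symm p).1, hI, Finite.of_equiv _ e.toEquiv, ?_, ?_, ?_, ?_⟩
  · intro p q hpq
    exact e.symm.injective (Subtype.ext hpq)
  · intro p
    exact (e.symm p).2
  · intro z hz
    refine ⟨e ⟨z, hz⟩, ?_⟩
    simp
  · intro p q
    have h1 := e.symm.map_adj_iff (v := p) (w := q)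
    rw [SimpleGraph.comap_adj] at h1
    exact h1

theorem LocGQ.nb_card {x : V} (h : LocGQ G x s t) (hx : (G.neighborSet x).Nonempty) :
    (G.neighborSet x).ncard = (s + 1) * (s * t + 1) := by
  obtain ⟨P, L, I, f, hI, hP, hf, h1, h2, h3⟩ := h.exists_map
  obtain ⟨z, hz⟩ := hx
  obtain ⟨p, -⟩ := h2 z hz
  have : Nonempty P := ⟨p⟩
  have e : G.neighborSet x = f '' Set.univ := by
    ext w
    constructor
    · intro hw
      obtain ⟨q, hq⟩ := h2 w hw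
      exact ⟨q, trivial, hq⟩
    · rintro ⟨q, -, rfl⟩
      exact h1 q
  rw [e, Set.ncard_image_of_injective _ hf, Set.ncard_univ, hI.card]

theorem LocGQ.two_card {x y : V} (h : LocGQ G x s t) (hy : G.Adj x y) :
    {z | G.Adj x z ∧ G.Adj y z}.ncard = s * (t + 1) := by
  obtain ⟨P, L, I, f, hI, hP, hf, h1, h2, h3⟩ := h.exists_map
  obtain ⟨p, rfl⟩ := h2 y hy
  have e : {z | G.Adj x z ∧ G.Adj (f p) z} = f '' {q | (collinearity I).Adj p q} := by
    ext w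
    constructor
    · rintro ⟨hw1, hw2⟩
      obtain ⟨q, rfl⟩ := h2 w hw1
      exact ⟨q, (h3 p q).1 hw2, rfl⟩
    · rintro ⟨q, hq, rfl⟩
      exact ⟨h1 q, (h3 p q).2 hq⟩
  rw [e, Set.ncard_image_of_injective _ hf, hI.coll_card]

theorem LocGQ.adj_card {x y z : V} (h : LocGQ G x s t) (hy : G.Adj x y) (hz : G.Adj x z)
    (hyz : G.Adj y z) : {u | G.Adj x u ∧ G.Adj y u ∧ G.Adj z u}.ncard = s - 1 := by
  obtain ⟨P, L, I, f, hI, hP, hf, h1, h2, h3⟩ := h.exists_map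
  obtain ⟨p, rfl⟩ := h2 y hy
  obtain ⟨q, rfl⟩ := h2 z hz
  have e : {u | G.Adj x u ∧ G.Adj (f p) u ∧ G.Adj (f q) u} =
      f '' {r | (collinearity I).Adj p r ∧ (collinearity I).Adj q r} := by
    ext w
    constructor
    · rintro ⟨hw1, hw2, hw3⟩
      obtain ⟨r, rfl⟩ := h2 w hw1
      exact ⟨r, ⟨(h3 p r).1 hw2, (h3 q r).1 hw3⟩, rfl⟩
    · rintro ⟨r, hr, rfl⟩
      exact ⟨h1 r, (h3 p r).2 hr.1, (h3 q r).2 hr.2⟩
  rw [e, Set.ncard_image_of_injective _ hf, hI.adj_card ((h3 p q).1 hyz)]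

theorem LocGQ.nonadj_card {x y z : V} (h : LocGQ G x s t) (hy : G.Adj x y) (hz : G.Adj x z)
    (hne : y ≠ z) (hyz : ¬ G.Adj y z) :
    {u | G.Adj x u ∧ G.Adj y u ∧ G.Adj z u}.ncard = t + 1 := by
  obtain ⟨P, L, I, f, hI, hP, hf, h1, h2, h3⟩ := h.exists_map
  obtain ⟨p, rfl⟩ := h2 y hy
  obtain ⟨q, rfl⟩ := h2 z hz
  have e : {u | G.Adj x u ∧ G.Adj (f p) u ∧ G.Adj (f q) u} =
      f '' {r | (collinearity I).Adj p r ∧ (collinearity I).Adj q r} := by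
    ext w
    constructor
    · rintro ⟨hw1, hw2, hw3⟩
      obtain ⟨r, rfl⟩ := h2 w hw1
      exact ⟨r, ⟨(h3 p r).1 hw2, (h3 q r).1 hw3⟩, rfl⟩
    · rintro ⟨r, hr, rfl⟩
      exact ⟨h1 r, (h3 p r).2 hr.1, (h3 q r).2 hr.2⟩
  rw [e, Set.ncard_image_of_injective _ hf,
    hI.nonadj_card (fun e => hne (congrArg f e)) (fun e => hyz ((h3 p q).2 e))]

/-- a neighbour of `x` outside a clique with `s + 1` vertices of the neighbourhood of `x` is
adjacent to at most one vertex of the clique -/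
theorem LocGQ.clique {x : V} (h : LocGQ G x s t) (hs : 1 ≤ s) {K : Finset V}
    (hK : ∀ p ∈ K, ∀ q ∈ K, p ≠ q → G.Adj p q) (hKx : ∀ p ∈ K, G.Adj x p)
    (hc : K.card = s + 1) {r p q : V} (hxr : G.Adj x r) (hr : r ∉ K) (hp : p ∈ K) (hq : q ∈ K)
    (hrp : G.Adj r p) (hrq : G.Adj r q) : p = q := by
  obtain ⟨P, L, I, f, hI, hP, hf, h1, h2, h3⟩ := h.exists_map
  obtain ⟨r', rfl⟩ := h2 r hxr
  obtain ⟨p', rfl⟩ := h2 p (hKx p hp)
  obtain ⟨q', rfl⟩ := h2 q (hKx q hq)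
  have e : (K : Set V) = f '' (f ⁻¹' (K : Set V)) := by
    rw [Set.image_preimage_eq_of_subset]
    intro w hw
    obtain ⟨v, rfl⟩ := h2 w (hKx w hw)
    exact ⟨v, rfl⟩
  have hcard : (f ⁻¹' (K : Set V)).ncard = s + 1 := by
    rw [← hc, ← Set.ncard_coe_finset K]
    conv_rhs => rw [e]
    rw [Set.ncard_image_of_injective _ hf]
  have key := hI.clique hs (K := f ⁻¹' (K : Set V)) (r := r') (p := p') (q := q')
    (fun a ha b hb hab => (h3 a b).1 (hK (f a) ha (f b) hb (fun e => hab (hf e)))) hcard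
    (fun hh => hr hh) hp hq ((h3 _ _).1 hrp) ((h3 _ _).1 hrq)
  rw [key]

theorem LocGQ.exists_clique {x : V} (h : LocGQ G x s t) (hx : (G.neighborSet x).Nonempty) :
    ∃ K : Finset V, K.card = s + 1 ∧ (∀ p ∈ K, G.Adj x p) ∧
      ∀ p ∈ K, ∀ q ∈ K, p ≠ q → G.Adj p q := by
  classical
  obtain ⟨P, L, I, f, hI, hP, hf, h1, h2, h3⟩ := h.exists_map
  obtain ⟨z, hz⟩ := hx
  obtain ⟨p, -⟩ := h2 z hz
  obtain ⟨K, -, hK, hK2⟩ := hI.exists_clique p
  refine ⟨(Set.toFinite (f '' K)).toFinset, ?_, ?_, ?_⟩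
  · rw [← Set.ncard_eq_toFinset_card, Set.ncard_image_of_injective _ hf, hK]
  · intro w hw
    rw [Set.Finite.mem_toFinset] at hw
    obtain ⟨v, -, rfl⟩ := hw
    exact h1 v
  · intro a ha b hb hab
    rw [Set.Finite.mem_toFinset] at ha hb
    obtain ⟨a', ha', rfl⟩ := ha
    obtain ⟨b', hb', rfl⟩ := hb
    exact (h3 a' b').2 (hK2 a' ha' b' hb' (fun e => hab (congrArg f e)))

/-- the divisibility condition for a `GQ(s,t)` -/
theorem LocGQ.dvd {x : V} (h : LocGQ G x s t) (hx : (G.neighborSet x).Nonempty) (hs : 1 ≤ s) :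
    (s + t) ∣ s * t * (s + 1) * (t + 1) := by
  obtain ⟨P, L, I, f, hI, hP, hf, h1, h2, h3⟩ := h.exists_map
  obtain ⟨z, hz⟩ := hx
  obtain ⟨p, -⟩ := h2 z hz
  have : Nonempty P := ⟨p⟩
  exact hI.dvd hs

end Pool.Agent.MP3c1a32
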