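import Pool.Agent.Lib.MP_3c1a32_co.Count

/-! MP_3c1a32_co: the upper bound for `μ` -/

namespace Pool.Agent.MP3c1a32

variable {V : Type} [Fintype V] [DecidableEq V] {G : SimpleGraph V} [DecidableRel G.Adj]
  {n k l m s t : ℕ}

/-- `C = {x} ∪ K` is a clique with `s + 2` vertices; every vertex outside it has at most two
neighbours in it -/
theorem mu_le (h : G.IsSRGWith n k l m) (hbot : G ≠ ⊥) (hloc : ∀ x, LocGQ G x s t)
    (hs : 1 ≤ s) (ht : 1 ≤ t) : m ≤ 2 * (s * t + 1) := by
  classical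
  obtain ⟨hm, hmk, hkn, hp⟩ := par_n h hbot hloc hs ht
  obtain ⟨x, -, -⟩ := SimpleGraph.ne_bot_iff_exists_adj.mp hbot
  obtain ⟨hk1, hl1⟩ := par_kl h hbot (hloc x)
  obtain ⟨K, hKc, hKx, hK⟩ := (hloc x).exists_clique (srg_nonempty h hbot x)
  have hxK : x ∉ K := fun hx => (hKx x hx).ne rfl
  set C := insert x K with hC
  have hCc : C.card = s + 2 := by rw [hC, Finset.card_insert_of_notMem hxK, hKc]
  have hclique : ∀ p ∈ C, ∀ q ∈ C, p ≠ q → G.Adj p q := by
    intro p hp q hq hpq
    rw [hC, Finset.mem_insert] at hp hq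
    rcases hp with rfl | hp
    · rcases hq with rfl | hq
      · exact absurd rfl hpq
      · exact hKx q hq
    · rcases hq with rfl | hq
      · exact (hKx p hp).symm
      · exact hK p hp q hq hpq
  -- at most two neighbours
  have htwo : ∀ z ∈ Cᶜ, (C.filter fun c => G.Adj c z).card ≤ 2 := by
    intro z hz
    rw [Finset.mem_compl] at hz
    by_contra hcon
    push Not at hcon
    obtain ⟨a, ha, b, hb, c, hc, hab, hac, hbc⟩ := Finset.two_lt_card.1 hcon
    rw [Finset.mem_filter] at ha hb hc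
    apply hbc
    refine (hloc a).clique hs (K := C.erase a) (r := z) ?_ ?_ ?_ ha.2 ?_ ?_ ?_ hb.2.symm hc.2.symm
    · intro p hp q hq hpq
      exact hclique p (Finset.mem_of_mem_erase hp) q (Finset.mem_of_mem_erase hq) hpq
    · intro p hp
      exact hclique a ha.1 p (Finset.mem_of_mem_erase hp) (Finset.ne_of_mem_erase hp).symm
    · rw [Finset.card_erase_of_mem ha.1, hCc]; rfl
    · exact fun h => hz (Finset.mem_of_mem_erase h)
    · exact Finset.mem_erase.2 ⟨hab.symm, hb.1⟩
    · exact Finset.mem_erase.2 ⟨hac.symm, hc.1⟩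
  have hdeg : ∀ c ∈ C, (Cᶜ.filter fun z => G.Adj c z).card + (s + 1) = k := by
    intro c hc
    rw [← h.regular c, ← SimpleGraph.card_neighborFinset_eq_degree]
    have e1 : G.neighborFinset c = (Cᶜ.filter fun z => G.Adj c z) ∪ C.erase c := by
      ext z
      rw [SimpleGraph.mem_neighborFinset, Finset.mem_union, Finset.mem_filter, Finset.mem_compl,
        Finset.mem_erase]
      constructor
      · intro hz
        by_cases hzC : z ∈ C
        · exact Or.inr ⟨hz.ne.symm, hzC⟩
        · exact Or.inl ⟨hzC, hz⟩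
      · rintro (⟨-, h1⟩ | ⟨h1, h2⟩)
        · exact h1
        · exact hclique c hc z h2 h1.symm
    have hdisj : Disjoint (Cᶜ.filter fun z => G.Adj c z) (C.erase c) := by
      rw [Finset.disjoint_left]
      intro z hz hz'
      exact (Finset.mem_compl.1 (Finset.mem_filter.1 hz).1) (Finset.mem_of_mem_erase hz')
    rw [e1, Finset.card_union_of_disjoint hdisj, Finset.card_erase_of_mem hc, hCc]
    rfl
  have hcount : ∑ c ∈ C, (Cᶜ.filter fun z => G.Adj c z).card =
      ∑ z ∈ Cᶜ, (C.filter fun c => G.Adj c z).card := by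
    simp only [Finset.card_filter]
    rw [Finset.sum_comm]
  have h1 : ∑ z ∈ Cᶜ, (C.filter fun c => G.Adj c z).card ≤ (n - (s + 2)) * 2 := by
    calc ∑ z ∈ Cᶜ, (C.filter fun c => G.Adj c z).card ≤ ∑ z ∈ Cᶜ, 2 :=
          Finset.sum_le_sum htwo
      _ = _ := by
        rw [Finset.sum_const, smul_eq_mul, Finset.card_compl, hCc, h.card]
  have h2 : ∑ c ∈ C, (Cᶜ.filter fun z => G.Adj c z).card = (s + 2) * (k - (s + 1)) := by
    have : ∀ c ∈ C, (Cᶜ.filter fun z => G.Adj c z).card = k - (s + 1) := by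
      intro c hc
      have := hdeg c hc
      omega
    rw [Finset.sum_congr rfl this, Finset.sum_const, smul_eq_mul, hCc]
  rw [h2.symm.trans hcount |>.symm] at h1
  obtain ⟨r, rfl⟩ : ∃ r, n = k + 1 + r := ⟨n - (k + 1), by omega⟩
  have hr : k + 1 + r - k - 1 = r := by omega
  rw [hr] at hp
  have hk2 : k = (s + 1) * (s * t) + (s + 1) := by rw [hk1]; ring
  have e3 : k - (s + 1) = (s + 1) * (s * t) := by omega
  have e4 : k + 1 + r - (s + 2) = r + (s + 1) * (s * t) := by omega
  rw [e3, e4] at h1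
  have h3 : (s ^ 2 * t) * (s + 1) ≤ 2 * r := by nlinarith
  have h4 : (s ^ 2 * t) * ((s + 1) * m) ≤ (s ^ 2 * t) * (2 * k) := by
    calc (s ^ 2 * t) * ((s + 1) * m) = (s ^ 2 * t) * (s + 1) * m := by ring
      _ ≤ 2 * r * m := Nat.mul_le_mul_right m h3
      _ = 2 * (r * m) := by ring
      _ = 2 * (k * (s ^ 2 * t)) := by rw [hp]
      _ = _ := by ring
  have h5 : (s + 1) * m ≤ 2 * k := Nat.le_of_mul_le_mul_left h4 (by positivity)
  rw [hk1] at h5
  have h6 : (s + 1) * m ≤ (s + 1) * (2 * (s * t + 1)) := by linarith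
  exact Nat.le_of_mul_le_mul_left h6 (by omega)

end Pool.Agent.MP3c1a32
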