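import Pool.Agent.Lib.MP_3c1a32_co.Spec

/-! MP_3c1a32_co: the eigenvalues of a strongly regular graph are integers -/

namespace Pool.Agent.MP3c1a32

variable {V : Type*} [Fintype V] [DecidableEq V] {G : SimpleGraph V} [DecidableRel G.Adj]
  {n k l m : ℕ}

/-- the eigenvalues are integers or the graph has the parameters of a conference graph -/
theorem exists_roots (h : G.IsSRGWith n k l m) (hn : 0 < n) (hmk : m ≤ k) :
    (∃ x y : ℤ, x * y = m - k ∧ x + y = l - m) ∨ 2 * (k : ℤ) + (n - 1) * (l - m) = 0 := by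
  obtain ⟨D, hD⟩ : ∃ D : ℕ, (D : ℤ) = ((l : ℤ) - m) ^ 2 + 4 * ((k : ℤ) - m) := by
    refine ⟨(((l : ℤ) - m) ^ 2 + 4 * ((k : ℤ) - m)).toNat, ?_⟩
    rw [Int.toNat_of_nonneg]
    have : (m : ℤ) ≤ k := by exact_mod_cast hmk
    nlinarith [sq_nonneg ((l : ℤ) - m)]
  by_cases hsq : IsSquare D
  · left
    obtain ⟨d, hd⟩ := hsq
    have hdd : (d : ℤ) * d = ((l : ℤ) - m) ^ 2 + 4 * ((k : ℤ) - m) := by
      rw [← hD, hd]
      push_cast
      ring
    have hpar : (2 : ℤ) ∣ ((l : ℤ) - m) + d := by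
      have h4 : ((l : ℤ) - m + d) ^ 2 % 2 = 0 := by
        have e : ((l : ℤ) - m + d) ^ 2
            = 2 * (((l : ℤ) - m) ^ 2 + 2 * ((k : ℤ) - m) + ((l : ℤ) - m) * d) := by
          linear_combination hdd
        rw [e]
        exact Int.mul_emod_right 2 _
      have h5 : (2 : ℤ) ∣ ((l : ℤ) - m + d) ^ 2 := Int.dvd_of_emod_eq_zero h4
      exact Int.prime_two.dvd_of_dvd_pow h5
    obtain ⟨x, hx⟩ := hpar
    refine ⟨x, x - d, ?_, ?_⟩
    · have h4 : (4 : ℤ) * (x * (x - d)) = 4 * ((m : ℤ) - k) := by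
        have h6 : (2 * x - (l - m) - d : ℤ) = 0 := by linarith
        have h7 : (2 : ℤ) * x = (l - m) + d := by linarith
        have e : (4 : ℤ) * (x * (x - d)) = (2 * x) * (2 * x - 2 * d) := by ring
        rw [e, h7]
        linear_combination -hdd
      linarith
    · linarith
  · right
    have hirr : Irrational (Real.sqrt (D : ℝ)) := irrational_sqrt_natCast_iff.mpr hsq
    have hs0 : Real.sqrt (D : ℝ) ≠ 0 := hirr.ne_zero
    have hss : Real.sqrt (D : ℝ) * Real.sqrt (D : ℝ) = ((l : ℝ) - m) ^ 2 + 4 * ((k : ℝ) - m) := by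
      rw [Real.mul_self_sqrt (Nat.cast_nonneg D)]
      exact_mod_cast hD
    set s := Real.sqrt (D : ℝ) with hs
    obtain ⟨f, hf⟩ := mult_nat h hn (x := ((l : ℝ) - m + s) / 2) (y := ((l : ℝ) - m - s) / 2)
      (by linear_combination (-1 / 4 : ℝ) * hss) (by ring)
      (by
        intro he
        apply hs0
        linarith)
    have key : s * (2 * (f : ℝ) - (n - 1)) = -(((l : ℝ) - m) * (n - 1)) - 2 * k := by
      linear_combination 2 * hf
    by_cases hfn : 2 * (f : ℝ) - (n - 1) = 0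
    · rw [hfn, mul_zero] at key
      have : 2 * (k : ℝ) + ((n : ℝ) - 1) * ((l : ℝ) - m) = 0 := by linarith
      exact_mod_cast this
    · exfalso
      apply hirr
      refine ⟨(-(((l : ℚ) - m) * (n - 1)) - 2 * k) / (2 * (f : ℚ) - (n - 1)), ?_⟩
      push_cast
      rw [← key, mul_div_assoc, div_self hfn, mul_one]

end Pool.Agent.MP3c1a32
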