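import Pool.Agent.Lib.MP_3c1a32_co.Final
import Pool.Agent.Lib.MP_3c1a32_co.Blocks
import Pool.Agent.Lib.MP_3c1a32_co.MuLe
import Pool.Agent.Lib.MP_3c1a32_co.LeMu
import Pool.Agent.Lib.MP_3c1a32_co.Krein
import Pool.Agent.Lib.MP_3c1a32_co.Roots

/-! MP_3c1a32_co: from the graph to the numerical conditions, and the main theorem -/

namespace Pool.Agent.MP3c1a32

theorem params_unique {s t s' t' : ℕ} (hs : 1 ≤ s) (ht : 1 ≤ t)
    (hk : (s + 1) * (s * t + 1) = (s' + 1) * (s' * t' + 1))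
    (hl : s * (t + 1) = s' * (t' + 1)) : s = s' ∧ t = t' := by
  have hk' : ((s : ℤ) + 1) * (s * t + 1) = (s' + 1) * (s' * t' + 1) := by exact_mod_cast hk
  have hl' : (s : ℤ) * (t + 1) = s' * (t' + 1) := by exact_mod_cast hl
  have hs0 : (1 : ℤ) ≤ s := by exact_mod_cast hs
  have ht0 : (1 : ℤ) ≤ t := by exact_mod_cast ht
  have hst : (1 : ℤ) ≤ s * t := by nlinarith
  have h1 : ((s : ℤ) - s') * (s - s' * t') = 0 := by
    linear_combination (-1 : ℤ) * hk' + ((s : ℤ) + 1) * hl'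
  have h2 : (s : ℤ) = s' := by
    rcases mul_eq_zero.1 h1 with h | h
    · linarith
    · -- `s = s' t'`, hence `s' = s t`
      have h3 : (s : ℤ) = s' * t' := by linarith
      have h4 : (s' : ℤ) = s * t := by linarith
      have h5 : (s : ℤ) * (t * t') = s * 1 := by
        calc (s : ℤ) * (t * t') = (s * t) * t' := by ring
          _ = s' * t' := by rw [h4]
          _ = s * 1 := by rw [mul_one, h3]
      have h6 : (t : ℤ) * t' = 1 := mul_left_cancel₀ (by linarith) h5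
      have h7 : (t : ℤ) = 1 := by
        have h8 : t * t' = 1 := by exact_mod_cast h6
        have := Nat.eq_one_of_mul_eq_one_right h8
        exact_mod_cast this
      rw [h4, h7, mul_one]
  have h3 : s = s' := by exact_mod_cast h2
  refine ⟨h3, ?_⟩
  subst h3
  have := Nat.eq_of_mul_eq_mul_left hs hl
  omega

variable {V : Type} [Fintype V] [DecidableEq V] {G : SimpleGraph V} [DecidableRel G.Adj]
  {n k l m s t : ℕ}

theorem not_conference {n k l m s t : ℕ} (hk : k = (s + 1) * (s * t + 1))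
    (hl : l = s * (t + 1)) (hs : 2 ≤ s) (ht : 1 ≤ t) (hkn : k + 1 ≤ n)
    (hn : (n - k - 1) * m = k * (s ^ 2 * t)) :
    2 * (k : ℤ) + (n - 1) * (l - m) ≠ 0 := by
  intro hc
  obtain ⟨N, rfl⟩ : ∃ N, n = k + 1 + N := ⟨n - (k + 1), by omega⟩
  have e : k + 1 + N - k - 1 = N := by omega
  rw [e] at hn
  have hk0 : 0 < k := by rw [hk]; positivity
  have hpos : 0 < k * (s ^ 2 * t) := by positivity
  rw [← hn] at hpos
  have hN : 0 < N := Nat.pos_of_mul_pos_right hpos |> fun h => by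
    rcases Nat.eq_zero_or_pos N with h0 | h0
    · rw [h0, zero_mul] at hpos; exact absurd hpos (lt_irrefl 0)
    · exact h0
  push_cast at hc
  have hc' : ((k : ℤ) + N) * (m - l) = 2 * k := by linarith
  have hk1 : (0 : ℤ) < k := by exact_mod_cast hk0
  have hN1 : (0 : ℤ) < N := by exact_mod_cast hN
  have h1 : (0 : ℤ) < m - l := by
    by_contra hh
    have : ((k : ℤ) + N) * (m - l) ≤ 0 :=
      mul_nonpos_of_nonneg_of_nonpos (by linarith) (not_lt.1 hh)
    linarith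
  have h2 : (m : ℤ) - l < 2 := by
    by_contra hh
    have : ((k : ℤ) + N) * 2 ≤ (k + N) * (m - l) :=
      mul_le_mul_of_nonneg_left (not_lt.1 hh) (by linarith)
    linarith
  have h3 : (m : ℤ) - l = 1 := by omega
  rw [h3, mul_one] at hc'
  have h4 : N = k := by
    have : (N : ℤ) = k := by linarith
    exact_mod_cast this
  rw [h4] at hn
  have h5 : m = s ^ 2 * t := Nat.eq_of_mul_eq_mul_left hk0 hn
  have h6 : (s : ℤ) * (s * t - t - 1) = 1 := by
    have h7 : (m : ℤ) = s ^ 2 * t := by exact_mod_cast h5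
    have h8 : (l : ℤ) = s * (t + 1) := by exact_mod_cast hl
    rw [h7, h8] at h3
    linear_combination h3
  have h7 : (s : ℤ) ∣ 1 := ⟨_, h6.symm⟩
  have h8 : s ∣ 1 := by exact_mod_cast h7
  have := Nat.le_of_dvd Nat.one_pos h8
  omega

/-- a strongly regular graph that is locally `GQ(s,t)` satisfies the numerical conditions -/
theorem exists_pkg (h : G.IsSRGWith n k l m) (hbot : G ≠ ⊥) (hloc : ∀ x, LocGQ G x s t)
    (hs : 2 ≤ s) (ht : 1 ≤ t) : ∃ a b f, Pkg n k l m s t a b f := by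
  have hs1 : 1 ≤ s := by omega
  obtain ⟨x₀, -, -⟩ := SimpleGraph.ne_bot_iff_exists_adj.mp hbot
  obtain ⟨hk, hl⟩ := par_kl h hbot (hloc x₀)
  obtain ⟨hm, hmk, hkn, hn⟩ := par_n h hbot hloc hs1 ht
  have hn0 : 0 < n := by omega
  have hmle := mu_le h hbot hloc hs1 ht
  have hlem := le_mu h hbot hloc hs1 ht
  have hN : ∀ x, (G.neighborSet x).ncard = (s + 1) * (s * t + 1) := fun x =>
    (hloc x).nb_card (srg_nonempty h hbot x)
  have hblock : (s + 2) ∣ n * ((t + 1) * (s * t + 1)) := by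
    have := block_dvd hloc hN hs1
    rwa [Nat.card_eq_fintype_card, h.card] at this
  have hdvd := (hloc x₀).dvd (srg_nonempty h hbot x₀) hs1
  have hnc := not_conference hk hl hs ht hkn hn
  have hroots : ∃ x y : ℤ, x * y = m - k ∧ x + y = l - m ∧ y ≤ x := by
    rcases exists_roots h hn0 hmk with ⟨x, y, h1, h2⟩ | h1
    · rcases le_total y x with hxy | hxy
      · exact ⟨x, y, h1, h2, hxy⟩
      · exact ⟨y, x, by rw [mul_comm]; exact h1, by rw [add_comm]; exact h2, hxy⟩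
    · exact absurd h1 hnc
  obtain ⟨x, y, hxy, hxy', hyx⟩ := hroots
  have hkZ : (k : ℤ) = (s + 1) * (s * t + 1) := by exact_mod_cast hk
  have hlZ : (l : ℤ) = s * (t + 1) := by exact_mod_cast hl
  have hsZ : (2 : ℤ) ≤ s := by exact_mod_cast hs
  have htZ : (1 : ℤ) ≤ t := by exact_mod_cast ht
  have hst0 : (0 : ℤ) < s ^ 2 * t := by positivity
  have hprod : (x + 1) * (y + 1) = -(s ^ 2 * t) := by
    linear_combination hxy + hxy' - hkZ + hlZ
  have hx1 : 0 < x + 1 := by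
    by_contra hh
    have h1 : 0 ≤ (x + 1) * (y + 1) :=
      mul_nonneg_of_nonpos_of_nonpos (not_lt.1 hh) (by linarith [not_lt.1 hh])
    linarith
  have hy1 : y + 1 < 0 := by
    by_contra hh
    have h1 : 0 ≤ (x + 1) * (y + 1) := mul_nonneg hx1.le (not_lt.1 hh)
    linarith
  obtain ⟨a, ha⟩ : ∃ a : ℕ, (a : ℤ) = x + 1 := ⟨(x + 1).toNat, Int.toNat_of_nonneg hx1.le⟩
  obtain ⟨b, hb⟩ : ∃ b : ℕ, (b : ℤ) = -(y + 1) :=
    ⟨(-(y + 1)).toNat, Int.toNat_of_nonneg (by linarith)⟩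
  have habZ : (a : ℤ) * b = s ^ 2 * t := by rw [ha, hb]; linarith
  have hmaZ : (m : ℤ) + a = s * t + s + 2 + b := by
    rw [ha, hb]; linear_combination hxy' + hlZ
  have hnZ : ((n : ℤ) - k - 1) * m = k * (s ^ 2 * t) := by
    have e : ((n - k - 1 : ℕ) : ℤ) = (n : ℤ) - k - 1 := by
      rw [Nat.cast_sub (by omega), Nat.cast_sub (by omega)]; push_cast; ring
    rw [← e]
    exact_mod_cast hn
  -- the multiplicity
  have hxR : ((a : ℝ) - 1) * (-(b : ℝ) - 1) = m - k := by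
    have h1 : (((a : ℤ) - 1) * (-(b : ℤ) - 1)) = m - k := by
      rw [ha, hb]; linear_combination hxy
    exact_mod_cast h1
  have hxR' : ((a : ℝ) - 1) + (-(b : ℝ) - 1) = l - m := by
    have h1 : (((a : ℤ) - 1) + (-(b : ℤ) - 1)) = l - m := by
      rw [ha, hb]; linear_combination hxy'
    exact_mod_cast h1
  have hapos : 0 < a := by
    have : (0 : ℤ) < a := by rw [ha]; exact hx1
    exact_mod_cast this
  have hbpos : 0 < b := by
    have : (0 : ℤ) < b := by rw [hb]; linarith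
    exact_mod_cast this
  have hne : ((a : ℝ) - 1) ≠ (-(b : ℝ) - 1) := by
    have h1 : (0 : ℝ) < a := by exact_mod_cast hapos
    have h2 : (0 : ℝ) < b := by exact_mod_cast hbpos
    intro hh
    linarith
  obtain ⟨f, hf⟩ := mult_nat h hn0 hxR hxR' hne
  have hfZ : (f : ℤ) * (a + b) = (b + 1) * (n - 1) - k := by
    have h1 : (f : ℝ) * (a + b) = (b + 1) * (n - 1) - k := by linear_combination hf
    exact_mod_cast h1
  have hapZ : (0 : ℤ) < a := by exact_mod_cast hapos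
  have hmleZ : (m : ℤ) ≤ 2 * (s * t + 1) := by exact_mod_cast hmle
  have hlemZ : ((s : ℤ) + 1) * (t + 2) ≤ m + (s + 1) * s := by exact_mod_cast hlem
  refine ⟨a, b, f, hk, hl, hm, ⟨n - k - 1, by omega, hn⟩, by exact_mod_cast habZ,
    by exact_mod_cast hmaZ, ?_, ?_, ?_, hblock, ?_, hdvd⟩
  · have h1 : (f : ℤ) * (m * (a + b)) = k * b * (k + b + 1) := by
      have h2 : (k : ℤ) = a * b + s * (t + 1) + 1 := by rw [hkZ, habZ]; ring
      have h3 : ((n : ℤ) - 1) * m = k * (a * b) + k * m := by rw [habZ]; linarith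
      calc (f : ℤ) * (m * (a + b)) = m * (f * (a + b)) := by ring
        _ = m * ((b + 1) * (n - 1) - k) := by rw [hfZ]
        _ = (b + 1) * (((n : ℤ) - 1) * m) - k * m := by ring
        _ = (b + 1) * (k * (a * b) + k * m) - k * m := by rw [h3]
        _ = k * b * (a * b + (m + a)) := by ring
        _ = k * b * (k + b + 1) := by
          rw [hmaZ]
          have h4 : (a : ℤ) * b + (s * t + s + 2 + b) = k + b + 1 := by rw [h2]; ring
          rw [h4]
    exact_mod_cast h1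
  · have h1 : 0 ≤ ((a : ℤ) - s) * (a + s * t) := by
      have h2 : 0 ≤ (a : ℤ) * (2 * (s * t + 1) - m) :=
        mul_nonneg hapZ.le (by linarith)
      have h3 : (a : ℤ) * (2 * (s * t + 1) - m) = (a - s) * (a + s * t) := by
        linear_combination (-(a : ℤ)) * hmaZ - habZ
      rwa [h3] at h2
    have h2 : 0 ≤ (a : ℤ) - s := nonneg_of_mul_nonneg_left h1 (by positivity)
    have h3 : (s : ℤ) ≤ a := by linarith
    exact_mod_cast h3
  · have h1 : 0 ≤ ((s : ℤ) ^ 2 - a) * (a + t) := by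
      have h2 : 0 ≤ (a : ℤ) * (m + (s + 1) * s - (s + 1) * (t + 2)) :=
        mul_nonneg hapZ.le (by linarith)
      have h3 : (a : ℤ) * (m + (s + 1) * s - (s + 1) * (t + 2)) = (s ^ 2 - a) * (a + t) := by
        linear_combination (a : ℤ) * hmaZ + habZ
      rwa [h3] at h2
    have h2 : 0 ≤ (s : ℤ) ^ 2 - a := nonneg_of_mul_nonneg_left h1 (by positivity)
    have h3 : (a : ℤ) ≤ s ^ 2 := by linarith
    exact_mod_cast h3
  · intro hmm
    obtain ⟨has, hbs⟩ := ab_ext hs1 ht (by exact_mod_cast habZ) (by exact_mod_cast hmaZ) hmm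
    have hk0 : 0 < k := by rw [hk]; positivity
    have hkr := krein h hn0 hk0 hxR hxR' (by
      have h1 : (0 : ℝ) < a := by exact_mod_cast hapos
      have h2 : (0 : ℝ) < b := by exact_mod_cast hbpos
      linarith) (by
      have h1 : (1 : ℝ) ≤ a := by exact_mod_cast hapos
      linarith)
    have hmmZ : (m : ℤ) = 2 * (s * t + 1) := by exact_mod_cast hmm
    have h2n : 2 * (n : ℤ) = (s + 2) * (s ^ 2 * t + s * t + 2) := by
      have h1 : ((s : ℤ) * t + 1) * (2 * (n - k - 1)) = (s * t + 1) * ((s + 1) * (s ^ 2 * t)) := by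
        rw [hmmZ] at hnZ
        rw [hkZ] at hnZ ⊢
        linear_combination hnZ
      have h2 : 2 * ((n : ℤ) - k - 1) = (s + 1) * (s ^ 2 * t) :=
        mul_left_cancel₀ (by positivity) h1
      rw [hkZ] at h2
      linear_combination h2
    have h3 : (0 : ℤ) ≤ n * (((s : ℤ) - 1) ^ 2 + (-(s * t) - 1)) +
        2 * (k - (s - 1)) * ((s - 1) - (-(s * t) - 1)) := by
      rw [has, hbs] at hkr
      push_cast at hkr
      exact_mod_cast hkr
    rw [hkZ] at h3
    have h4 : (0 : ℤ) ≤ (s * (s ^ 2 * t + s * t + 2)) * (s ^ 2 - t * (s - 2)) := by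
      have h5 : ((s : ℤ) * (s ^ 2 * t + s * t + 2)) * (s ^ 2 - t * (s - 2)) =
          2 * (n * (((s : ℤ) - 1) ^ 2 + (-(s * t) - 1)) +
        2 * ((s + 1) * (s * t + 1) - (s - 1)) * ((s - 1) - (-(s * t) - 1))) := by
        linear_combination (-(((s : ℤ) - 1) ^ 2 + (-(s * t) - 1))) * h2n
      rw [h5]
      linarith
    have h5 : (0 : ℤ) ≤ s ^ 2 - t * (s - 2) := nonneg_of_mul_nonneg_right h4 (by positivity)
    linarith

/-- the main theorem -/
theorem main (hG : G.IsSRGWith n k l m) (hbot : G ≠ ⊥)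
    (hloc : ∀ x, ∃ s t, LocGQ G x s t) {x₀ : V} {p i j : ℕ} (hp : p.Prime) (hi : 1 ≤ i)
    (hj : 1 ≤ j) (hx₀ : LocGQ G x₀ (p ^ i) (p ^ j)) :
    (∀ x, LocGQ G x (p ^ i) (p ^ j)) ∧
    k = (p ^ i + 1) * (p ^ i * p ^ j + 1) ∧ l = p ^ i * (p ^ j + 1) ∧
    (i < j → (n, k, l, m) = (64, 27, 10, 12) ∨ (n, k, l, m) = (275, 112, 30, 56) ∨
      (n, k, l, m) = (486, 165, 36, 66) ∨ (n, k, l, m) = (870, 165, 36, 30) ∨
      (n, k, l, m) = (242194, 8721, 528, 306)) ∧
    (j ≤ i → (m = 2 * (p ^ i * p ^ j + 1) ∧ (p ^ j + 1) ∣ ((p ^ i) ^ 2 - 1) * (p ^ i + 2)) ∨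
      (m = 2 * (p ^ i + 1) ∧ (p ^ i + 2) ∣ 8 * p ^ j * ((p ^ j) ^ 2 - 1) * (2 * p ^ j - 1)) ∨
      (n, k, l, m) = (3914, 585, 72, 90)) ∧
    (2 * i = 3 * j → (n, k, l, m) = (1450, 297, 40, 66)) ∧
    (i = 2 * j → m = 2 * (p ^ i * p ^ j + 1) ∨ (n, k, l, m) = (190, 45, 12, 10) ∨
      (n, k, l, m) = (200152, 3276, 150, 52)) ∧
    (i = j → m = 2 * (p ^ i * p ^ j + 1) ∨ (n, k, l, m) = (36, 15, 6, 6) ∨
      (n, k, l, m) = (176, 40, 12, 8) ∨ (n, k, l, m) = (630, 85, 20, 10) ∨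
      (n, k, l, m) = (3914, 585, 72, 90) ∨ (n, k, l, m) = (17226, 585, 72, 18) ∨
      (n, k, l, m) = (189126, 2380, 182, 28)) := by
  have hs2 : 2 ≤ p ^ i := by
    calc 2 ≤ p := hp.two_le
      _ = p ^ 1 := (pow_one p).symm
      _ ≤ p ^ i := Nat.pow_le_pow_right hp.pos hi
  have ht1 : 1 ≤ p ^ j := Nat.one_le_pow _ _ hp.pos
  obtain ⟨hk, hl⟩ := par_kl hG hbot hx₀
  have hloc' : ∀ x, LocGQ G x (p ^ i) (p ^ j) := by
    intro x
    obtain ⟨s, t, hst⟩ := hloc x
    obtain ⟨hk', hl'⟩ := par_kl hG hbot hst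
    obtain ⟨h1, h2⟩ := params_unique (by omega : 1 ≤ p ^ i) ht1 (hk.symm.trans hk')
      (hl.symm.trans hl')
    rw [h1, h2]
    exact hst
  obtain ⟨a, b, f, hpkg⟩ := exists_pkg hG hbot hloc' hs2 ht1
  exact ⟨hloc', hk, hl, num_final hpkg hp hi hj rfl rfl⟩

end Pool.Agent.MP3c1a32
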