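import Mathlib

/-! MP_3c1a32_co: the diophantine problem for orders which are powers of the same prime -/

namespace Pool.Agent.MP3c1a32

/-- odd `p` -/
theorem num_odd {p i j α β m s t A B : ℕ} (hp : p.Prime) (hp2 : p ≠ 2) (hi : 1 ≤ i)
    (hs : s = p ^ i) (ht : t = p ^ j) (hαβ : α + β = j) (hα : α ≤ i) (hA : A = p ^ α)
    (hB : B = p ^ β) (hm : m + s * A = s * t + s + 2 + s * B)
    (hdiv : m ∣ (s + 1) * (s * t + 1) * (s ^ 2 * t)) : A = 1 ∨ B = 1 := by
  by_contra hcon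
  have hA1 : A ≠ 1 := fun h => hcon (Or.inl h)
  have hB1 : B ≠ 1 := fun h => hcon (Or.inr h)
  have hp3 : 3 ≤ p := by
    have := hp.two_le
    omega
  have hα0 : α ≠ 0 := by
    intro h
    apply hA1
    rw [hA, h, pow_zero]
  have hβ0 : β ≠ 0 := by
    intro h
    apply hB1
    rw [hB, h, pow_zero]
  have hpow : ∀ e : ℕ, e ≠ 0 → 3 ≤ p ^ e := by
    intro e he
    calc 3 ≤ p := hp3
      _ = p ^ 1 := (pow_one p).symm
      _ ≤ p ^ e := Nat.pow_le_pow_right (by omega) (by omega)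
  have hA3 : 3 ≤ A := hA ▸ hpow α hα0
  have hB3 : 3 ≤ B := hB ▸ hpow β hβ0
  have hs3 : 3 ≤ s := hs ▸ hpow i (by omega)
  have hAs : A ≤ s := by
    rw [hA, hs]
    exact Nat.pow_le_pow_right (by omega) hα
  have htAB : t = A * B := by
    rw [ht, ← hαβ, pow_add, ← hA, ← hB]
  have hps : p ∣ s := by
    rw [hs]
    exact dvd_pow_self p (by omega)
  have hsodd : Odd s := by
    rw [hs]
    exact (hp.odd_of_ne_two hp2).pow
  obtain ⟨q, hq⟩ := hsodd
  -- pass to the integers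
  have hmZ : (m : ℤ) = s * (t + 1 + B - A) + 2 := by
    have h1 : ((m + s * A : ℕ) : ℤ) = ((s * t + s + 2 + s * B : ℕ) : ℤ) := by rw [hm]
    push_cast at h1
    linarith
  have hqZ : (s : ℤ) = 2 * q + 1 := by
    rw [hq]
    push_cast
    ring
  have htZ : (t : ℤ) = A * B := by
    rw [htAB]
    push_cast
    ring
  have hcs : IsCoprime (m : ℤ) (s : ℤ) := by
    refine ⟨-(q : ℤ), 1 + q * (t + 1 + B - A), ?_⟩
    rw [hmZ]
    linear_combination hqZ
  have hcp : IsCoprime (m : ℤ) (p : ℤ) :=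
    hcs.of_isCoprime_of_dvd_right (Int.natCast_dvd_natCast.mpr hps)
  have hct : IsCoprime (m : ℤ) (t : ℤ) := by
    rw [ht]
    push_cast
    exact hcp.pow_right
  have hcst : IsCoprime (m : ℤ) ((s : ℤ) ^ 2 * t) := (hcs.pow_right).mul_right hct
  have hdZ : (m : ℤ) ∣ ((s : ℤ) + 1) * (s * t + 1) * ((s : ℤ) ^ 2 * t) := by
    have := Int.natCast_dvd_natCast.mpr hdiv
    push_cast at this
    exact this
  obtain ⟨w, hw⟩ := hcst.dvd_of_dvd_mul_right hdZ
  have hM : (0 : ℤ) < m := by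
    rw [hmZ, htZ]
    have h1 : (3 : ℤ) ≤ A := by exact_mod_cast hA3
    have h2 : (3 : ℤ) ≤ B := by exact_mod_cast hB3
    have h3 : (3 : ℤ) ≤ s := by exact_mod_cast hs3
    have h4 : (0 : ℤ) ≤ (A : ℤ) * B + 1 + B - A := by nlinarith
    have h5 : (0 : ℤ) ≤ (s : ℤ) * (A * B + 1 + B - A) := mul_nonneg (by linarith) h4
    linarith
  set N : ℤ := (2 * s + 1) * (B - A) + 2 * s + 3 - t with hN
  set u : ℤ := s + 1 - w with hu
  have hkey : (2 * u - 1) * (m : ℤ) = s * N := by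
    have e1 : u * (m : ℤ) = (s + 1) * (s + 1 + s * (B - A)) := by
      rw [hu]
      have : (s + 1 : ℤ) * m - (s + 1) * (s * t + 1) = (s + 1) * (s + 1 + s * (B - A)) := by
        rw [hmZ]
        ring
      linarith [this, hw]
    have e2 : 2 * ((s + 1 : ℤ) * (s + 1 + s * (B - A))) - m = s * N := by
      rw [hmZ, hN]
      ring
    linarith
  have hMN : (m : ℤ) ∣ N := by
    apply hcs.dvd_of_dvd_mul_left
    exact ⟨2 * u - 1, by rw [← hkey]; ring⟩
  obtain ⟨v, hv⟩ := hMN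
  have hsv : (s : ℤ) * v = 2 * u - 1 := by
    have : (m : ℤ) * (s * v) = m * (2 * u - 1) := by
      rw [hv] at hkey
      linarith
    exact mul_left_cancel₀ hM.ne' this
  have hv0 : v ≠ 0 := by
    intro h
    rw [h, mul_zero] at hsv
    omega
  have h1 : (3 : ℤ) ≤ A := by exact_mod_cast hA3
  have h2 : (3 : ℤ) ≤ B := by exact_mod_cast hB3
  have h3 : (3 : ℤ) ≤ s := by exact_mod_cast hs3
  have h4 : (A : ℤ) ≤ s := by exact_mod_cast hAs
  have hlt : N < m := by
    have : (m : ℤ) - N = (s + 1) * ((A - 1) * (B + 1)) := by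
      rw [hmZ, hN, htZ]
      ring
    have hpos : (0 : ℤ) < (s + 1) * ((A - 1) * (B + 1)) :=
      mul_pos (by linarith) (mul_pos (by linarith) (by linarith))
    linarith
  have hgt : -(m : ℤ) < N := by
    have : N + (m : ℤ) = s * ((A + 3) * (B - 3)) + 12 * s - (A - 1) * (B + 1) + 4 := by
      rw [hmZ, hN, htZ]
      ring
    have hx : (0 : ℤ) ≤ (A + 3) * ((B : ℤ) - 3) := mul_nonneg (by linarith) (by linarith)
    have hy : (3 : ℤ) * ((A + 3) * (B - 3)) ≤ s * ((A + 3) * (B - 3)) :=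
      mul_le_mul_of_nonneg_right h3 hx
    nlinarith
  rcases lt_or_gt_of_ne hv0 with h | h
  · have : N ≤ -(m : ℤ) := by
      rw [hv]
      nlinarith
    linarith
  · have : (m : ℤ) ≤ N := by
      rw [hv]
      nlinarith
    linarith

end Pool.Agent.MP3c1a32
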