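import Mathlib

/-! MP_3c1a32_co: the diophantine problem for orders which are powers of the same prime -/

namespace Pool.Agent.MP3c1a32

/-- first reduction: `a = s A`, `b = s B`, `A B = t` -/
theorem num_red {p i j a b m s t : ℕ} (hp : p.Prime) (hi : 1 ≤ i) (hj : 1 ≤ j) (hs : s = p ^ i)
    (ht : t = p ^ j) (hab : a * b = s ^ 2 * t) (hm : m + a = s * t + s + 2 + b) (ha1 : s ≤ a)
    (ha2 : a ≤ s ^ 2) (hm0 : 0 < m) :
    ∃ α β : ℕ, α + β = j ∧ α ≤ i ∧ a = s * p ^ α ∧ b = s * p ^ β := by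
  have hp1 : 1 < p := hp.one_lt
  have hprod : a * b = p ^ (2 * i + j) := by
    rw [hab, hs, ht, ← pow_mul, ← pow_add, mul_comm i 2]
  obtain ⟨a', -, ha'⟩ := (Nat.dvd_prime_pow hp).1 (Dvd.intro _ hprod)
  obtain ⟨b', -, hb'⟩ := (Nat.dvd_prime_pow hp).1 (Dvd.intro_left _ hprod)
  have hsum : a' + b' = 2 * i + j := by
    rw [ha', hb', ← pow_add] at hprod
    exact Nat.pow_right_injective hp1 hprod
  have h1 : i ≤ a' := by
    rw [hs, ha'] at ha1
    exact (Nat.pow_le_pow_iff_right hp1).1 ha1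
  have h2 : a' ≤ 2 * i := by
    rw [hs, ha', ← pow_mul, mul_comm i 2] at ha2
    exact (Nat.pow_le_pow_iff_right hp1).1 ha2
  have h3 : i ≤ b' := by
    by_contra hlt
    push Not at hlt
    -- `a ≥ p s t ≥ 2 s t`
    have hge : 2 * (s * t) ≤ a := by
      have e1 : p ^ (i + j + 1) ≤ a := by
        rw [ha']
        exact Nat.pow_le_pow_right hp.pos (by omega)
      have e2 : p ^ (i + j + 1) = p * (s * t) := by
        rw [hs, ht]; ring
      calc 2 * (s * t) ≤ p * (s * t) := Nat.mul_le_mul_right _ hp1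
        _ ≤ a := by rw [← e2]; exact e1
    have hb2 : 2 * b ≤ s := by
      have e1 : p ^ (b' + 1) ≤ p ^ i := Nat.pow_le_pow_right hp.pos (by omega)
      have e2 : 2 * p ^ b' ≤ p ^ (b' + 1) := by
        rw [pow_succ, mul_comm (p ^ b') p]
        exact Nat.mul_le_mul_right _ hp1
      rw [hb', hs]
      exact e2.trans e1
    have hb1 : 2 ≤ b := by
      rw [hb']
      calc 2 ≤ p := hp1
        _ = p ^ 1 := (pow_one p).symm
        _ ≤ p ^ b' := Nat.pow_le_pow_right hp.pos (by omega)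
    have ht2 : 2 ≤ t := by
      rw [ht]
      calc 2 ≤ p := hp1
        _ = p ^ 1 := (pow_one p).symm
        _ ≤ p ^ j := Nat.pow_le_pow_right hp.pos hj
    have hst : s * 2 ≤ s * t := Nat.mul_le_mul_left s ht2
    omega
  refine ⟨a' - i, b' - i, by omega, by omega, ?_, ?_⟩
  · rw [ha', hs, ← pow_add]
    congr 1
    omega
  · rw [hb', hs, ← pow_add]
    congr 1
    omega

end Pool.Agent.MP3c1a32
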