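import Mathlib

/-! MP_3c1a32_co: the diophantine problem for orders which are powers of the same prime -/

namespace Pool.Agent.MP3c1a32

namespace NumT

theorem pow2_cases (a : ℕ) :
    2 ^ a = 1 ∨ 2 ^ a = 2 ∨ 2 ^ a = 4 ∨ 2 ^ a = 8 ∨ 2 ^ a = 16 ∨ 32 ≤ 2 ^ a := by
  rcases Nat.lt_or_ge a 5 with h | h
  · interval_cases a <;> simp
  · right; right; right; right; right
    calc 32 = 2 ^ 5 := by norm_num
      _ ≤ 2 ^ a := Nat.pow_le_pow_right (by norm_num) h

theorem even_of {a x : ℕ} (h : x = 2 ^ a) (h1 : x ≠ 1) : ∃ y, x = 2 * y ∧ 1 ≤ y := by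
  rcases Nat.eq_zero_or_pos a with h0 | h0
  · subst h0; simp at h; exact absurd h h1
  · obtain ⟨b, rfl⟩ : ∃ b, a = b + 1 := ⟨a - 1, by omega⟩
    exact ⟨2 ^ b, by rw [h, pow_succ]; ring, Nat.one_le_two_pow⟩

/-- the divisibility gives `2 N = u M` -/
theorem exists_u {i j α β m s t A B : ℕ} (hi : 2 ≤ i)
    (hs : s = 2 ^ i) (ht : t = 2 ^ j) (hαβ : α + β = j) (hA : A = 2 ^ α)
    (hB : B = 2 ^ β) (hm : m + s * A = s * t + s + 2 + s * B)
    (hdiv : m ∣ (s + 1) * (s * t + 1) * (s ^ 2 * t)) :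
    ∃ u : ℤ, 2 * ((2 * (s : ℤ) + 1) * (B - A) + 2 * s + 3 - A * B) = (m : ℤ) * u := by
  obtain ⟨b, rfl⟩ : ∃ b, i = b + 2 := ⟨i - 2, by omega⟩
  have hs4 : (s : ℤ) = 4 * 2 ^ b := by rw [hs]; push_cast; ring
  have htAB : (t : ℤ) = A * B := by
    rw [ht, hA, hB, ← hαβ]; push_cast; ring
  have hmz : (m : ℤ) = s * t + s + 2 + s * B - s * A := by
    have : (m : ℤ) + s * A = s * t + s + 2 + s * B := by exact_mod_cast hm
    linarith
  set M' : ℤ := 2 * 2 ^ b * (t + 1 + B - A) + 1 with hM'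
  have hmM : (m : ℤ) = 2 * M' := by rw [hmz, hM', hs4]; ring
  have hc2 : IsCoprime M' 2 := ⟨1, -(2 ^ b * (t + 1 + B - A)), by rw [hM']; ring⟩
  have hcs : IsCoprime M' (s : ℤ) := by
    rw [hs]; push_cast; exact hc2.pow_right
  have hct : IsCoprime M' ((s : ℤ) ^ 2 * t) := by
    refine IsCoprime.mul_right hcs.pow_right ?_
    rw [ht]; push_cast; exact hc2.pow_right
  have hd : (m : ℤ) ∣ ((s : ℤ) + 1) * (s * t + 1) * (s ^ 2 * t) := by exact_mod_cast hdiv
  have hd1 : M' ∣ ((s : ℤ) + 1) * (s * t + 1) :=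
    hct.dvd_of_dvd_mul_right (dvd_trans ⟨2, by rw [hmM]; ring⟩ hd)
  set N : ℤ := (2 * (s : ℤ) + 1) * (B - A) + 2 * s + 3 - A * B with hN
  have hsN : (s : ℤ) * N = M' * (2 * (2 * (s + 1) - 1)) - 2 * (((s : ℤ) + 1) * (s * t + 1)) := by
    have : M' * (2 * (2 * ((s : ℤ) + 1) - 1)) = m * (2 * ((s : ℤ) + 1) - 1) := by
      rw [hmM]; ring
    rw [this, hmz, htAB, hN]; ring
  have hd2 : M' ∣ (s : ℤ) * N := by
    rw [hsN]
    exact dvd_sub (Dvd.intro _ rfl) (Dvd.dvd.mul_left hd1 2)
  have hd3 : M' ∣ N := hcs.dvd_of_dvd_mul_left hd2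
  obtain ⟨u, hu⟩ := hd3
  exact ⟨u, by rw [hu, hmM]; ring⟩

end NumT

open NumT in
/-- `p = 2`, `s ≥ 4` -/
theorem num_two {i j α β m s t A B : ℕ} (hi : 2 ≤ i)
    (hs : s = 2 ^ i) (ht : t = 2 ^ j) (hαβ : α + β = j) (hα : α ≤ i) (hA : A = 2 ^ α)
    (hB : B = 2 ^ β) (hm : m + s * A = s * t + s + 2 + s * B)
    (hdiv : m ∣ (s + 1) * (s * t + 1) * (s ^ 2 * t)) :
    A = 1 ∨ B = 1 ∨ (s = 8 ∧ A = 2 ∧ B = 4) ∨ (s = 4 ∧ A = 4 ∧ B = 2) ∨
      (s = 16 ∧ A = 16 ∧ B = 2) ∨ (s = 16 ∧ A = 16 ∧ B = 4) := by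
  obtain ⟨u, hu⟩ := exists_u hi hs ht hαβ hA hB hm hdiv
  by_cases hA1 : A = 1
  · exact Or.inl hA1
  by_cases hB1 : B = 1
  · exact Or.inr (Or.inl hB1)
  right; right
  obtain ⟨A', hA', hA'1⟩ := even_of hA hA1
  obtain ⟨B', hB', hB'1⟩ := even_of hB hB1
  have hsA : A ≤ s := by
    rw [hA, hs]; exact Nat.pow_le_pow_right (by norm_num) hα
  have htAB : t = A * B := by
    rw [ht, hA, hB, ← hαβ, pow_add]
  have hs4 : 4 ≤ s := by
    rw [hs]
    calc 4 = 2 ^ 2 := by norm_num
      _ ≤ _ := Nat.pow_le_pow_right (by norm_num) hi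
  have cs : s = 4 ∨ s = 8 ∨ s = 16 ∨ 32 ≤ s := by
    have := pow2_cases i
    rw [← hs] at this
    omega
  have cA : A = 2 ∨ A = 4 ∨ A = 8 ∨ A = 16 ∨ 32 ≤ A := by
    have := pow2_cases α
    rw [← hA] at this
    omega
  have cB : B = 2 ∨ B = 4 ∨ 8 ≤ B := by
    have := pow2_cases β
    rw [← hB] at this
    omega
  have hmz : (m : ℤ) = s * (A * B) + s + 2 + s * B - s * A := by
    have : (m : ℤ) + s * A = s * t + s + 2 + s * B := by exact_mod_cast hm
    rw [htAB] at this
    push_cast at this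
    linarith
  have zA : (2 : ℤ) ≤ A := by omega
  have zB : (2 : ℤ) ≤ B := by omega
  have zs : (4 : ℤ) ≤ s := by omega
  have zsA : (A : ℤ) ≤ s := by exact_mod_cast hsA
  have hmpos : (0 : ℤ) < m := by
    have h1 : (0 : ℤ) ≤ s * A * (B - 1) := by
      have : (0 : ℤ) ≤ B - 1 := by linarith
      positivity
    have h2 : (0 : ℤ) ≤ s * B := by positivity
    rw [hmz]; linarith
  set N : ℤ := (2 * (s : ℤ) + 1) * (B - A) + 2 * s + 3 - A * B with hN
  have hmN : (m : ℤ) - N = (s + 1) * (A - 1) * (B + 1) := by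
    rw [hmz, hN]; ring
  have hu2 : u < 2 := by
    have h1 : 0 < (m : ℤ) - N := by
      rw [hmN]
      have h2 : (0 : ℤ) < (s : ℤ) + 1 := by linarith
      have h3 : (0 : ℤ) < (A : ℤ) - 1 := by linarith
      have h4 : (0 : ℤ) < (B : ℤ) + 1 := by linarith
      positivity
    by_contra hcon
    have : (m : ℤ) * 2 ≤ m * u := by
      apply mul_le_mul_of_nonneg_left _ hmpos.le
      linarith
    linarith
  have hu0 : u ≠ 0 := by
    intro h0
    rw [h0, mul_zero] at hu
    have hN0 : N = 2 * ((2 * (s : ℤ) + 1) * (B' - A') + s + 1 - 2 * A' * B') + 1 := by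
      rw [hN, hA', hB']; push_cast; ring
    omega
  have hsum : (m : ℤ) + N = s * ((A + 3) * (B - 3) + 12) - (A - 1) * (B + 1) + 4 := by
    rw [hmz, hN]; ring
  rcases cB with hB2 | hB4 | hB8
  · -- B = 2
    have hlow : -4 < u := by
      have h1 : 0 < N + 2 * m := by
        rw [hmz, hN, hB2]; push_cast; nlinarith
      by_contra hcon
      have : (m : ℤ) * u ≤ m * (-4) := by
        apply mul_le_mul_of_nonneg_left _ hmpos.le
        linarith
      linarith
    rw [hN, hmz, hB2] at hu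
    push_cast at hu
    have hu' : u = 1 ∨ u = -1 ∨ u = -2 ∨ u = -3 := by omega
    rcases hu' with rfl | rfl | rfl | rfl
    · exfalso
      nlinarith
    · have e : (A : ℤ) * (s + 2) = 5 * s + 4 := by linarith
      rcases cA with h | h | h | h | h
      · rw [h] at e; push_cast at e; omega
      · rw [h] at e; push_cast at e
        exact Or.inr (Or.inl ⟨by omega, h, hB2⟩)
      · rw [h] at e; push_cast at e; omega
      · rw [h] at e; push_cast at e; omega
      · exfalso
        have : (32 : ℤ) ≤ A := by exact_mod_cast h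
        nlinarith
    · have e : (A : ℤ) * (s + 3) = 9 * s + 7 := by linarith
      rcases cA with h | h | h | h | h
      · rw [h] at e; push_cast at e; omega
      · rw [h] at e; push_cast at e; omega
      · rw [h] at e; push_cast at e
        exfalso
        omega
      · rw [h] at e; push_cast at e; omega
      · exfalso
        have : (32 : ℤ) ≤ A := by exact_mod_cast h
        nlinarith
    · have e : (A : ℤ) * (s + 6) = 21 * s + 16 := by linarith
      rcases cA with h | h | h | h | h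
      · rw [h] at e; push_cast at e; omega
      · rw [h] at e; push_cast at e; omega
      · rw [h] at e; push_cast at e; omega
      · rw [h] at e; push_cast at e
        exact Or.inr (Or.inr (Or.inl ⟨by omega, h, hB2⟩))
      · exfalso
        have : (32 : ℤ) ≤ A := by exact_mod_cast h
        nlinarith
  · -- B = 4
    have hlow : -2 < u := by
      have h1 : 0 < (m : ℤ) + N := by
        rw [hsum, hB4]; push_cast; nlinarith
      by_contra hcon
      have : (m : ℤ) * u ≤ m * (-2) := by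
        apply mul_le_mul_of_nonneg_left _ hmpos.le
        linarith
      linarith
    rw [hN, hmz, hB4] at hu
    push_cast at hu
    have hu' : u = 1 ∨ u = -1 := by omega
    rcases hu' with rfl | rfl
    · rcases cA with h | h | h | h | h
      · rw [h] at hu; push_cast at hu
        exact Or.inl ⟨by omega, h, hB4⟩
      · rw [h] at hu; push_cast at hu; omega
      · rw [h] at hu; push_cast at hu; omega
      · rw [h] at hu; push_cast at hu; omega
      · exfalso
        have : (32 : ℤ) ≤ A := by exact_mod_cast h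
        nlinarith
    · have e : (A : ℤ) * (s + 10) = 25 * s + 16 := by linarith
      rcases cA with h | h | h | h | h
      · rw [h] at e; push_cast at e; omega
      · rw [h] at e; push_cast at e; omega
      · rw [h] at e; push_cast at e; omega
      · rw [h] at e; push_cast at e
        exact Or.inr (Or.inr (Or.inr ⟨by omega, h, hB4⟩))
      · exfalso
        have : (32 : ℤ) ≤ A := by exact_mod_cast h
        nlinarith
  · -- B ≥ 8
    exfalso
    have zB8 : (8 : ℤ) ≤ B := by exact_mod_cast hB8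
    have hlow : -2 < u := by
      have h1 : 0 < (m : ℤ) + N := by
        rw [hsum]
        nlinarith [mul_nonneg (sub_nonneg.2 zA) (sub_nonneg.2 zB8),
          mul_nonneg (mul_nonneg (sub_nonneg.2 zA) (sub_nonneg.2 zB8)) (sub_nonneg.2 zs),
          mul_nonneg (sub_nonneg.2 zA) (sub_nonneg.2 zs),
          mul_nonneg (sub_nonneg.2 zB8) (sub_nonneg.2 zs)]
      by_contra hcon
      have : (m : ℤ) * u ≤ m * (-2) := by
        apply mul_le_mul_of_nonneg_left _ hmpos.le
        linarith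
      linarith
    have hu' : u = 1 ∨ u = -1 := by omega
    rcases hu' with rfl | rfl
    · have e : ((s : ℤ) + 2) * (A * B) + (3 * s + 2) * A - (3 * s + 2) * B - 3 * s - 4 = 0 := by
        rw [hN, hmz] at hu; linarith
      rcases eq_or_lt_of_le zA with h | h
      · rw [← h] at e
        have e' : (B : ℤ) * (s - 2) = 3 * s := by linarith
        nlinarith
      · have h4 : (4 : ℤ) ≤ A := by omega
        nlinarith [mul_nonneg (sub_nonneg.2 h4) (sub_nonneg.2 zB8),
          mul_nonneg (mul_nonneg (sub_nonneg.2 h4) (sub_nonneg.2 zB8)) (sub_nonneg.2 zs),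
          mul_nonneg (sub_nonneg.2 h4) (sub_nonneg.2 zs),
          mul_nonneg (sub_nonneg.2 zB8) (sub_nonneg.2 zs)]
    · have e : ((s : ℤ) - 2) * (A * B) + (5 * s + 2) * (B - A) + 5 * s + 8 = 0 := by
        rw [hN, hmz] at hu; linarith
      rcases cs with h | h | h | h
      · rw [h] at e; push_cast at e
        have : (A : ℤ) ≤ 4 := by rw [h] at hsA; exact_mod_cast hsA
        nlinarith
      · rw [h] at e; push_cast at e
        nlinarith
      · rw [h] at e; push_cast at e
        nlinarith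
      · have z32 : (32 : ℤ) ≤ s := by exact_mod_cast h
        nlinarith [mul_nonneg (sub_nonneg.2 zA) (sub_nonneg.2 zB8),
          mul_nonneg (mul_nonneg (sub_nonneg.2 zA) (sub_nonneg.2 zB8)) (sub_nonneg.2 z32),
          mul_nonneg (sub_nonneg.2 zA) (sub_nonneg.2 z32),
          mul_nonneg (sub_nonneg.2 zB8) (sub_nonneg.2 z32)]

end Pool.Agent.MP3c1a32
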