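import Pool.Agent.Lib.MP_3c1a32_co.NumR
import Pool.Agent.Lib.MP_3c1a32_co.NumO
import Pool.Agent.Lib.MP_3c1a32_co.NumT
import Pool.Agent.Lib.MP_3c1a32_co.Fam

/-! MP_3c1a32_co: the numerical conditions and their consequences -/

namespace Pool.Agent.MP3c1a32

/-- The numerical conditions on the parameters `(n,k,l,m)` of a strongly regular graph that is
locally `GQ(s,t)`; `a - 1` and `- b - 1` are the eigenvalues different from `k` and `f` is the
multiplicity of `a - 1`. -/
structure Pkg (n k l m s t a b f : ℕ) : Prop where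
  hk : k = (s + 1) * (s * t + 1)
  hl : l = s * (t + 1)
  hm : 0 < m
  hn : ∃ r, n = 1 + k + r ∧ r * m = k * (s ^ 2 * t)
  hab : a * b = s ^ 2 * t
  hma : m + a = s * t + s + 2 + b
  hf : f * (m * (a + b)) = k * b * (k + b + 1)
  ha1 : s ≤ a
  ha2 : a ≤ s ^ 2
  hblock : (s + 2) ∣ n * ((t + 1) * (s * t + 1))
  hkrein : m = 2 * (s * t + 1) → (t : ℤ) * (s - 2) ≤ s ^ 2
  hdvd : (s + t) ∣ s * t * (s + 1) * (t + 1)

variable {n k l m s t a b f p i j : ℕ}

theorem Pkg.dvd (h : Pkg n k l m s t a b f) : m ∣ (s + 1) * (s * t + 1) * (s ^ 2 * t) := by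
  obtain ⟨r, -, hr⟩ := h.hn
  rw [← h.hk, ← hr]
  exact dvd_mul_left _ _

theorem low_of_b (h : Pkg n k l m s t a b f) (hs : 1 ≤ s) (hb : b = s) : m = 2 * (s + 1) := by
  have h1 := h.hab
  have h2 := h.hma
  subst hb
  have h3 : a = b * t := by
    have : b * a = b * (b * t) := by nlinarith
    exact Nat.eq_of_mul_eq_mul_left hs this
  subst h3
  nlinarith

theorem ext_of_a (h : Pkg n k l m s t a b f) (hs : 1 ≤ s) (ha : a = s) :
    m = 2 * (s * t + 1) := by
  have h1 := h.hab
  have h2 := h.hma
  subst ha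
  have h3 : b = a * t := by
    have : a * b = a * (a * t) := by nlinarith
    exact Nat.eq_of_mul_eq_mul_left hs this
  subst h3
  nlinarith

/-- the case `s = 2` -/
theorem num_s2 (h : Pkg n k l m s t a b f) (hs : s = 2) (ht : t = 2 ^ j) (hj : 1 ≤ j) :
    (t = 2 ∧ (m = 2 * (s * t + 1) ∨ m = 2 * (s + 1))) ∨ (t = 4 ∧ m = 12) := by
  subst hs
  have hd : (t + 2) ∣ 12 := by
    have h1 := h.hdvd
    have h2 : ((t : ℤ) + 2) ∣ 12 := by
      have h3 : ((2 + t : ℕ) : ℤ) ∣ ((2 * t * (2 + 1) * (t + 1) : ℕ) : ℤ) := by exact_mod_cast h1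
      have h4 : (12 : ℤ) = ((2 * t * (2 + 1) * (t + 1) : ℕ) : ℤ) - ((2 + t : ℕ) : ℤ) * (6 * t - 6)
          := by push_cast; ring
      have h5 : ((t : ℤ) + 2) = ((2 + t : ℕ) : ℤ) := by push_cast; ring
      rw [h5, h4]
      exact dvd_sub h3 (dvd_mul_right _ _)
    exact_mod_cast h2
  have ht2 : 2 ≤ t := by
    rw [ht]
    calc 2 = 2 ^ 1 := rfl
      _ ≤ 2 ^ j := Nat.pow_le_pow_right (by norm_num) hj
  have ht10 : t ≤ 10 := by
    have := Nat.le_of_dvd (by norm_num) hd
    omega
  have ht' : t = 2 ∨ t = 4 := by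
    have h5 : j < 4 := by
      by_contra hh
      have : 2 ^ 4 ≤ 2 ^ j := Nat.pow_le_pow_right (by norm_num) (not_lt.1 hh)
      rw [← ht] at this
      omega
    have h8 : t ≠ 8 := by
      rintro h8
      rw [h8] at hd
      revert hd
      decide
    interval_cases j
    · left; rw [ht]; norm_num
    · right; rw [ht]; norm_num
    · exfalso; apply h8; rw [ht]; norm_num
  have ha1 := h.ha1
  have ha2 := h.ha2
  have hab := h.hab
  have hma := h.hma
  have hf := h.hf
  have hk := h.hk
  clear ht hd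
  rcases ht' with rfl | rfl
  · left
    refine ⟨rfl, ?_⟩
    have : a = 2 ∨ a = 3 ∨ a = 4 := by omega
    rcases this with rfl | rfl | rfl
    · left; omega
    · omega
    · right; omega
  · right
    refine ⟨rfl, ?_⟩
    have : a = 2 ∨ a = 3 ∨ a = 4 := by omega
    rcases this with rfl | rfl | rfl
    · exfalso
      have h1 : b = 8 := by omega
      subst h1
      have h2 : m = 18 := by omega
      subst h2 hk
      omega
    · omega
    · omega

/-- the main reduction -/
theorem num_core (h : Pkg n k l m s t a b f) (hp : p.Prime) (hi : 1 ≤ i) (hj : 1 ≤ j)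
    (hs : s = p ^ i) (ht : t = p ^ j) :
    (m = 2 * (s * t + 1) ∧ (j ≤ i ∨ (s = 3 ∧ t = 9) ∨ (s = 4 ∧ t = 8))) ∨
      (m = 2 * (s + 1) ∧ j ≤ i) ∨ (s = 8 ∧ t = 8 ∧ m = 90) ∨ (s = 4 ∧ t = 8 ∧ m = 30) ∨
      (s = 16 ∧ t = 32 ∧ m = 306) ∨ (s = 2 ∧ t = 4 ∧ m = 12) := by
  have hs2 : 2 ≤ s := by
    rw [hs]
    calc 2 ≤ p := hp.two_le
      _ = p ^ 1 := (pow_one p).symm
      _ ≤ p ^ i := Nat.pow_le_pow_right hp.pos hi
  obtain ⟨α, β, hαβ, hα, hA, hB⟩ := num_red hp hi hj hs ht h.hab h.hma h.ha1 h.ha2 h.hm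
  have hAB : p ^ α * p ^ β = t := by rw [← pow_add, hαβ, ht]
  -- low
  have hlow : p ^ β = 1 → m = 2 * (s + 1) ∧ j ≤ i := by
    intro h1
    rw [h1, mul_one] at hB
    refine ⟨low_of_b h (by omega) hB, ?_⟩
    have : β = 0 := by
      rcases Nat.eq_zero_or_pos β with h0 | h0
      · exact h0
      · have := Nat.one_lt_pow h0.ne' hp.one_lt
        omega
    omega
  -- ext
  have hext : p ^ α = 1 →
      m = 2 * (s * t + 1) ∧ (j ≤ i ∨ (s = 2 ∧ i < j) ∨ (s = 3 ∧ t = 9) ∨ (s = 4 ∧ t = 8)) := by
    intro h1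
    rw [h1, mul_one] at hA
    have hm := ext_of_a h (by omega) hA
    refine ⟨hm, ?_⟩
    have hk := h.hkrein hm
    rcases Nat.lt_or_ge i j with hij | hij
    · right
      have h2 : p * s ≤ t := by
        rw [hs, ht, ← pow_succ']
        exact Nat.pow_le_pow_right hp.pos hij
      have h3 : (p : ℤ) * s ≤ t := by exact_mod_cast h2
      have h4 : (2 : ℤ) ≤ s := by exact_mod_cast hs2
      have h5 : (2 : ℤ) ≤ p := by exact_mod_cast hp.two_le
      have h6 : (p : ℤ) * (s - 2) ≤ s := by
        have : (s : ℤ) * (p * (s - 2)) ≤ s * s := by nlinarith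
        exact le_of_mul_le_mul_left this (by linarith)
      have h7 : (s : ℤ) ≤ 4 := by nlinarith
      have h8 : s ≤ 4 := by exact_mod_cast h7
      have h9 : s = 2 ∨ s = 3 ∨ s = 4 := by omega
      rcases h9 with h9 | h9 | h9
      · left; exact ⟨h9, hij⟩
      · right; left
        refine ⟨h9, ?_⟩
        have hp3 : p = 3 := by
          have : p ∣ 3 := by rw [← h9, hs]; exact dvd_pow_self p (by omega)
          exact (Nat.prime_dvd_prime_iff_eq hp (by norm_num)).1 this
        subst hp3
        subst h9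
        push_cast at hk h3
        have h10 : (t : ℤ) ≤ 9 := by linarith
        have h11 : (9 : ℤ) ≤ t := by linarith
        omega
      · right; right
        refine ⟨h9, ?_⟩
        subst h9
        push_cast at hk h3
        have h10 : (t : ℤ) ≤ 8 := by linarith
        have h11 : (8 : ℤ) ≤ t := by nlinarith
        omega
    · left; exact hij
  rcases eq_or_ne p 2 with hp2 | hp2
  · subst hp2
    rcases Nat.lt_or_ge i 2 with hi2 | hi2
    · have hi1 : i = 1 := by omega
      subst hi1
      have hs' : s = 2 := by rw [hs]; norm_num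
      rcases num_s2 h hs' ht hj with ⟨h1, h2 | h2⟩ | ⟨h1, h2⟩
      · left
        refine ⟨h2, Or.inl ?_⟩
        by_contra hj1
        have : 2 ^ 2 ≤ 2 ^ j := Nat.pow_le_pow_right (by norm_num) (by omega)
        rw [← ht] at this
        omega
      · right; left
        refine ⟨h2, ?_⟩
        by_contra hj1
        have : 2 ^ 2 ≤ 2 ^ j := Nat.pow_le_pow_right (by norm_num) (by omega)
        rw [← ht] at this
        omega
      · right; right; right; right; right
        exact ⟨hs', h1, h2⟩
    · have hs4 : 4 ≤ s := by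
        rw [hs]
        calc 4 = 2 ^ 2 := rfl
          _ ≤ 2 ^ i := Nat.pow_le_pow_right (by norm_num) hi2
      have hm := h.hma
      rw [hA, hB] at hm
      rcases num_two hi2 hs ht hαβ hα rfl rfl hm h.dvd with h1 | h1 | ⟨h1, h2, h3⟩ |
        ⟨h1, h2, h3⟩ | ⟨h1, h2, h3⟩ | ⟨h1, h2, h3⟩
      · left
        obtain ⟨h4, h5⟩ := hext h1
        refine ⟨h4, ?_⟩
        rcases h5 with h5 | h5 | h5 | h5
        · exact Or.inl h5
        · omega
        · exact Or.inr (Or.inl h5)
        · exact Or.inr (Or.inr h5)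
      · right; left; exact hlow h1
      · right; right; left
        rw [h2, h3] at hAB hm
        subst h1
        refine ⟨rfl, by omega, ?_⟩
        subst hAB
        omega
      · right; right; right; left
        rw [h2, h3] at hAB hm
        subst h1
        refine ⟨rfl, by omega, ?_⟩
        subst hAB
        omega
      · right; right; right; right; left
        rw [h2, h3] at hAB hm
        subst h1
        refine ⟨rfl, by omega, ?_⟩
        subst hAB
        omega
      · exfalso
        rw [h2, h3] at hAB hm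
        subst h1
        subst hAB
        have hm' : m = 850 := by omega
        subst hm'
        obtain ⟨r, hr, hr'⟩ := h.hn
        have hk := h.hk
        subst hk
        have hr2 : r = 335872 := by omega
        subst hr2
        have hd := h.hblock
        subst hr
        revert hd
        decide
  · have hm := h.hma
    rw [hA, hB] at hm
    rcases num_odd hp hp2 hi hs ht hαβ hα rfl rfl hm h.dvd with h1 | h1
    · left
      obtain ⟨h4, h5⟩ := hext h1
      refine ⟨h4, ?_⟩
      rcases h5 with h5 | ⟨h5, -⟩ | h5 | h5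
      · exact Or.inl h5
      · exfalso
        have : p ∣ 2 := by rw [← h5, hs]; exact dvd_pow_self p (by omega)
        exact hp2 ((Nat.prime_dvd_prime_iff_eq hp (by norm_num)).1 this)
      · exact Or.inr (Or.inl h5)
      · exact Or.inr (Or.inr h5)
    · right; left; exact hlow h1

end Pool.Agent.MP3c1a32
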