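import Pool.Agent.Lib.MP_3c1a32_co.MuLe
import Pool.Agent.Lib.MP_3c1a32_co.LeMu
import Pool.Agent.Lib.MP_3c1a32_co.Krein
import Pool.Agent.Lib.MP_3c1a32_co.Roots
import Pool.Agent.Lib.MP_3c1a32_co.NumR
import Pool.Agent.Lib.MP_3c1a32_co.NumO
import Pool.Agent.Lib.MP_3c1a32_co.NumT

/-! MP_3c1a32_co: the parameters of a strongly regular graph that is locally `GQ(p^i,p^j)` -/

namespace Pool.Agent.MP3c1a32

variable {V : Type} [Fintype V] [DecidableEq V] {G : SimpleGraph V} [DecidableRel G.Adj]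
  {n k l m s t : ℕ}

/-- the eigenvalues are `a - 1` and `- (b + 1)` with `a b = s² t` -/
theorem exists_ab (h : G.IsSRGWith n k l m) (hbot : G ≠ ⊥) (hloc : ∀ x, LocGQ G x s t)
    (hs : 2 ≤ s) (ht : 2 ≤ t) :
    ∃ a b : ℕ, a * b = s ^ 2 * t ∧ m + a = s * t + s + 2 + b ∧ s ≤ a ∧ a ≤ s ^ 2 := by
  obtain ⟨hm, hmk, hkn, hp⟩ := par_n h hbot hloc (by omega) (by omega)
  obtain ⟨x, -, -⟩ := SimpleGraph.ne_bot_iff_exists_adj.mp hbot
  obtain ⟨hk1, hl1⟩ := par_kl h hbot (hloc x)
  have hup := mu_le h hbot hloc (by omega) (by omega)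
  have hlo := le_mu h hbot hloc (by omega) (by omega)
  have hn0 : 0 < n := by omega
  have hkz : (k : ℤ) = (s + 1) * (s * t + 1) := by rw [hk1]; push_cast; ring
  have hlz : (l : ℤ) = s * (t + 1) := by rw [hl1]; push_cast; ring
  have hsz : (2 : ℤ) ≤ s := by exact_mod_cast hs
  have htz : (2 : ℤ) ≤ t := by exact_mod_cast ht
  have hst : (4 : ℤ) ≤ s * t := by nlinarith
  rcases exists_roots h hn0 hmk with ⟨x, y, hxy, hsum⟩ | hconf
  · -- the main case
    wlog hle : y ≤ x generalizing x y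
    · exact this y x (by rw [mul_comm]; exact hxy) (by rw [add_comm]; exact hsum) (by omega)
    have hprod : (x + 1) * (y + 1) = -(s ^ 2 * t) := by
      have : (x + 1) * (y + 1) = x * y + (x + y) + 1 := by ring
      rw [this, hxy, hsum, hkz, hlz]; ring
    have hpos : (0 : ℤ) < s ^ 2 * t := by positivity
    have hx1 : 0 < x + 1 := by
      by_contra hcon
      push Not at hcon
      have : 0 ≤ (x + 1) * (y + 1) := mul_nonneg_of_nonpos_of_nonpos hcon (by linarith)
      linarith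
    have hy1 : y + 1 < 0 := by
      by_contra hcon
      push Not at hcon
      have : 0 ≤ (x + 1) * (y + 1) := mul_nonneg hx1.le hcon
      linarith
    obtain ⟨a, ha⟩ := Int.eq_ofNat_of_zero_le hx1.le
    obtain ⟨b, hb⟩ := Int.eq_ofNat_of_zero_le (show 0 ≤ -(y + 1) by linarith)
    have habz : (a : ℤ) * b = s ^ 2 * t := by
      rw [← ha, ← hb]; linarith
    have hmz : (m : ℤ) + a = s * t + s + 2 + b := by
      rw [← ha, ← hb]; rw [hlz] at hsum; linarith
    have hapos : (0 : ℤ) < a := by rw [← ha]; exact hx1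
    have hbpos : (0 : ℤ) < b := by rw [← hb]; linarith
    refine ⟨a, b, by exact_mod_cast habz, by exact_mod_cast hmz, ?_, ?_⟩
    · -- `s ≤ a`
      by_contra hcon
      push Not at hcon
      have h1 : (a : ℤ) ≤ s - 1 := by
        have : (a : ℤ) < s := by exact_mod_cast hcon
        linarith
      have h2 : (m : ℤ) ≤ 2 * (s * t + 1) := by exact_mod_cast hup
      have h3 : (b : ℤ) ≤ s * t - s + a := by linarith
      have h4 : (b : ℤ) ≤ s * t - 1 := by linarith
      have h5 : (a : ℤ) * b ≤ (s - 1) * (s * t - 1) :=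
        mul_le_mul h1 h4 hbpos.le (by linarith)
      have h6 : ((s : ℤ) - 1) * (s * t - 1) = s ^ 2 * t - s * t - s + 1 := by ring
      linarith
    · -- `a ≤ s²`
      by_contra hcon
      push Not at hcon
      have h1 : (s : ℤ) ^ 2 + 1 ≤ a := by exact_mod_cast hcon
      have h2 : ((s : ℤ) + 1) * (t + 2) ≤ m + (s + 1) * s := by exact_mod_cast hlo
      have h3 : (t : ℤ) + 1 ≤ b := by linarith
      have h5 : ((s : ℤ) ^ 2 + 1) * (t + 1) ≤ a * b :=
        mul_le_mul h1 h3 (by positivity) hapos.le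
      have h6 : ((s : ℤ) ^ 2 + 1) * (t + 1) = s ^ 2 * t + s ^ 2 + t + 1 := by ring
      have h7 : (0 : ℤ) < s ^ 2 := by positivity
      linarith
  · -- conference graphs
    exfalso
    rw [hlz] at hconf
    have hp' : ((n : ℤ) - k - 1) * m = k * (s ^ 2 * t) := by
      have h1 : k + 1 ≤ n := hkn
      have : ((n - k - 1 : ℕ) : ℤ) = (n : ℤ) - k - 1 := by omega
      rw [← this]
      exact_mod_cast hp
    have hkpos : (0 : ℤ) < k := by rw [hkz]; positivity
    have hmpos : (0 : ℤ) < m := by exact_mod_cast hm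
    have h2 : (m : ℤ) ≤ 2 * (s * t + 1) := by exact_mod_cast hup
    have hnk : (0 : ℤ) < (n : ℤ) - k - 1 := by
      by_contra hcon
      push Not at hcon
      have h3 : ((n : ℤ) - k - 1) * m ≤ 0 := mul_nonpos_of_nonpos_of_nonneg hcon hmpos.le
      have h4 : (0 : ℤ) < k * (s ^ 2 * t) := by positivity
      linarith
    -- `m - l ≥ 1`
    have hd : (1 : ℤ) ≤ m - s * (t + 1) := by
      by_contra hcon
      push Not at hcon
      have h3 : (0 : ℤ) ≤ (n - 1) * (s * (t + 1) - m) := mul_nonneg (by linarith) (by linarith)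
      linarith
    have h5 : (n : ℤ) - 1 ≤ 2 * k := by
      have h3 : ((n : ℤ) - 1) * 1 ≤ (n - 1) * (m - s * (t + 1)) :=
        mul_le_mul_of_nonneg_left hd (by linarith)
      linarith
    have h6 : (s : ℤ) ^ 2 * t ≤ m := by
      by_contra hcon
      push Not at hcon
      have h7 : ((n : ℤ) - k - 1) * m ≤ k * m := mul_le_mul_of_nonneg_right (by linarith) hmpos.le
      have h8 : (k : ℤ) * m < k * (s ^ 2 * t) := mul_lt_mul_of_pos_left hcon hkpos
      linarith
    have h9 : (s : ℤ) = 2 := by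
      by_contra hne
      have h10 : (3 : ℤ) ≤ s := by omega
      have h12 : (3 : ℤ) * (s * t) ≤ s * (s * t) := mul_le_mul_of_nonneg_right h10 (by linarith)
      have h13 : (s : ℤ) * (s * t) = s ^ 2 * t := by ring
      linarith
    rw [h9] at h6 hconf h2
    have h11 : (2 : ℤ) ≤ m - 2 * (t + 1) := by linarith
    have h3 : ((n : ℤ) - 1) * 2 ≤ (n - 1) * (m - 2 * (t + 1)) :=
      mul_le_mul_of_nonneg_left h11 (by linarith)
    linarith

/-- the number of vertices if `μ = 2 (s t + 1)` -/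
theorem two_n_ext (h : G.IsSRGWith n k l m) (hbot : G ≠ ⊥) (hloc : ∀ x, LocGQ G x s t)
    (hs : 1 ≤ s) (ht : 1 ≤ t) (hm : m = 2 * (s * t + 1)) :
    2 * n = (s + 2) * (s ^ 2 * t + s * t + 2) := by
  obtain ⟨-, -, hkn, hp⟩ := par_n h hbot hloc hs ht
  obtain ⟨x, -, -⟩ := SimpleGraph.ne_bot_iff_exists_adj.mp hbot
  obtain ⟨hk1, -⟩ := par_kl h hbot (hloc x)
  obtain ⟨r, rfl⟩ : ∃ r, n = k + 1 + r := ⟨n - (k + 1), by omega⟩
  have hr : k + 1 + r - k - 1 = r := by omega
  rw [hr, hm, hk1] at hp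
  have h1 : (s * t + 1) * (2 * r) = (s * t + 1) * ((s + 1) * (s ^ 2 * t)) := by linarith
  have h2 := Nat.eq_of_mul_eq_mul_left (by positivity) h1
  rw [mul_add, h2, hk1]
  ring

/-- the number of vertices if `μ = 2 (s + 1)` -/
theorem two_n_low (h : G.IsSRGWith n k l m) (hbot : G ≠ ⊥) (hloc : ∀ x, LocGQ G x s t)
    (hs : 1 ≤ s) (ht : 1 ≤ t) (hm : m = 2 * (s + 1)) :
    2 * n = (s * t + 1) * (s ^ 2 * t + 2 * s + 2) + 2 := by
  obtain ⟨-, -, hkn, hp⟩ := par_n h hbot hloc hs ht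
  obtain ⟨x, -, -⟩ := SimpleGraph.ne_bot_iff_exists_adj.mp hbot
  obtain ⟨hk1, -⟩ := par_kl h hbot (hloc x)
  obtain ⟨r, rfl⟩ : ∃ r, n = k + 1 + r := ⟨n - (k + 1), by omega⟩
  have hr : k + 1 + r - k - 1 = r := by omega
  rw [hr, hm, hk1] at hp
  have h1 : (s + 1) * (2 * r) = (s + 1) * ((s * t + 1) * (s ^ 2 * t)) := by linarith
  have h2 := Nat.eq_of_mul_eq_mul_left (by positivity) h1
  rw [mul_add, h2, hk1]
  ring

/-- Krein's condition if `μ = 2 (s t + 1)` -/
theorem krein_ext (h : G.IsSRGWith n k l m) (hbot : G ≠ ⊥) (hloc : ∀ x, LocGQ G x s t)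
    (hs : 1 ≤ s) (ht : 1 ≤ t) (hm : m = 2 * (s * t + 1)) :
    (t : ℤ) * (s - 2) ≤ s ^ 2 := by
  obtain ⟨-, -, hkn, hp⟩ := par_n h hbot hloc hs ht
  obtain ⟨x, -, -⟩ := SimpleGraph.ne_bot_iff_exists_adj.mp hbot
  obtain ⟨hk1, hl1⟩ := par_kl h hbot (hloc x)
  have h2n := two_n_ext h hbot hloc hs ht hm
  have hk := srg_deg_pos h hbot
  have hkr : (k : ℝ) = (s + 1) * (s * t + 1) := by rw [hk1]; push_cast; ring
  have hlr : (l : ℝ) = s * (t + 1) := by rw [hl1]; push_cast; ring
  have hmr : (m : ℝ) = 2 * (s * t + 1) := by rw [hm]; push_cast; ring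
  have hnr : 2 * (n : ℝ) = (s + 2) * (s ^ 2 * t + s * t + 2) := by exact_mod_cast h2n
  have hsr : (1 : ℝ) ≤ s := by exact_mod_cast hs
  have htr : (1 : ℝ) ≤ t := by exact_mod_cast ht
  have hK := krein h (by omega) hk (x := (s : ℝ) - 1) (y := -((s : ℝ) * t + 1))
    (by rw [hkr, hmr]; ring) (by rw [hlr, hmr]; ring) (by nlinarith) (by linarith)
  have hfac : 2 * ((n : ℝ) * (((s : ℝ) - 1) ^ 2 + -((s : ℝ) * t + 1)) +
      2 * (k - (s - 1)) * ((s - 1) - -((s : ℝ) * t + 1))) =
      (s * (s ^ 2 * t + s * t + 2)) * (s ^ 2 - t * (s - 2)) := by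
    have : 2 * ((n : ℝ) * (((s : ℝ) - 1) ^ 2 + -((s : ℝ) * t + 1)) +
      2 * (k - (s - 1)) * ((s - 1) - -((s : ℝ) * t + 1))) =
      (2 * (n : ℝ)) * (((s : ℝ) - 1) ^ 2 + -((s : ℝ) * t + 1)) +
      4 * (k - (s - 1)) * ((s - 1) - -((s : ℝ) * t + 1)) := by ring
    rw [this, hnr, hkr]
    ring
  have hpos : (0 : ℝ) < s * (s ^ 2 * t + s * t + 2) := by positivity
  have hge : (0 : ℝ) ≤ s ^ 2 - t * (s - 2) := by
    by_contra hcon
    push Not at hcon
    have := mul_neg_of_pos_of_neg hpos hcon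
    linarith
  have : ((t : ℝ)) * (s - 2) ≤ s ^ 2 := by linarith
  exact_mod_cast this

/-- `s = 2`: the divisibility condition for a `GQ(2,t)`, `t` a power of `2` -/
theorem t_of_two {β : ℕ} (h : G.IsSRGWith n k l m) (hbot : G ≠ ⊥) (hloc : ∀ x, LocGQ G x 2 t)
    (ht : t = 2 ^ β) : t = 1 ∨ t = 2 ∨ t = 4 := by
  obtain ⟨x, -, -⟩ := SimpleGraph.ne_bot_iff_exists_adj.mp hbot
  have hd := (hloc x).dvd (srg_nonempty h hbot x) (by norm_num)
  have h1 : t + 2 ∣ 12 := by
    have h2 : (t : ℤ) + 2 ∣ 12 := by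
      have h3 : ((2 : ℤ) + t) ∣ 2 * t * (2 + 1) * (t + 1) := by exact_mod_cast hd
      have h4 : (t : ℤ) + 2 ∣ 2 * t * (2 + 1) * (t + 1) := by rwa [add_comm]
      have h5 : (12 : ℤ) = 2 * t * (2 + 1) * (t + 1) - (t + 2) * (6 * t - 6) := by ring
      rw [h5]
      exact dvd_sub h4 (Dvd.intro _ rfl)
    exact_mod_cast h2
  have h3 : t + 2 ≤ 12 := Nat.le_of_dvd (by norm_num) h1
  have h4 : β < 4 := by
    by_contra hcon
    push Not at hcon
    have : 2 ^ 4 ≤ 2 ^ β := Nat.pow_le_pow_right (by norm_num) hcon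
    omega
  interval_cases β
  · left; simpa using ht
  · right; left; simpa using ht
  · right; right; simpa using ht
  · exfalso
    rw [ht] at h1
    omega

/-- **The parameters.** -/
theorem params {p i j : ℕ} (h : G.IsSRGWith n k l m) (hbot : G ≠ ⊥)
    (hloc : ∀ x, LocGQ G x s t) (hp : p.Prime) (hi : 1 ≤ i) (hj : 1 ≤ j) (hs : s = p ^ i)
    (ht : t = p ^ j) :
    (m = 2 * (s * t + 1) ∧ (t ≤ s ∨ (s = 3 ∧ t = 9) ∨ (s = 4 ∧ t = 8))) ∨
    (m = 2 * (s + 1) ∧ t ≤ s) ∨ (s = 2 ∧ t = 4 ∧ m = 12) ∨ (s = 4 ∧ t = 8 ∧ m = 30) ∨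
    (s = 8 ∧ t = 8 ∧ m = 90) ∨ (s = 16 ∧ t = 32 ∧ m = 306) ∨ (s = 16 ∧ t = 64 ∧ m = 850) := by
  have hp2 := hp.two_le
  have hs2 : p ≤ s := by
    rw [hs]
    calc p = p ^ 1 := (pow_one p).symm
      _ ≤ p ^ i := Nat.pow_le_pow_right hp.pos hi
  have ht2 : p ≤ t := by
    rw [ht]
    calc p = p ^ 1 := (pow_one p).symm
      _ ≤ p ^ j := Nat.pow_le_pow_right hp.pos hj
  obtain ⟨hm0, hmk, hkn, hpar⟩ := par_n h hbot hloc (by omega) (by omega)
  obtain ⟨x, -, -⟩ := SimpleGraph.ne_bot_iff_exists_adj.mp hbot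
  obtain ⟨hk1, hl1⟩ := par_kl h hbot (hloc x)
  obtain ⟨a, b, hab, hma, ha1, ha2⟩ := exists_ab h hbot hloc (by omega) (by omega)
  obtain ⟨α, β, hαβ, hα, ha, hb⟩ := num_red hp hi hj hs ht hab hma ha1 ha2 hm0
  have hma' : m + s * p ^ α = s * t + s + 2 + s * p ^ β := by rw [← ha, ← hb]; exact hma
  have hdiv : m ∣ (s + 1) * (s * t + 1) * (s ^ 2 * t) := by
    rw [← hk1, ← hpar]
    exact Dvd.intro_left _ rfl
  have key : p ^ α = 1 ∨ p ^ β = 1 ∨ (s = 2 ∧ t = 4 ∧ m = 12) ∨
      (s = 8 ∧ p ^ α = 2 ∧ p ^ β = 4) ∨ (s = 4 ∧ p ^ α = 4 ∧ p ^ β = 2) ∨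
      (s = 16 ∧ p ^ α = 16 ∧ p ^ β = 2) ∨ (s = 16 ∧ p ^ α = 16 ∧ p ^ β = 4) := by
    by_cases hp' : p = 2
    · subst hp'
      rcases Nat.lt_or_ge i 2 with hi2 | hi2
      · have hi1 : i = 1 := by omega
        subst hi1
        have hs' : s = 2 := by simpa using hs
        subst hs'
        have hα' : α = 0 ∨ α = 1 := by omega
        rcases hα' with rfl | rfl
        · left; simp
        · have htB : t = 2 * 2 ^ β := by rw [ht, ← hαβ, pow_add, pow_one]
          rcases t_of_two h hbot hloc ht with h1 | h1 | h1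
          · omega
          · right; left; omega
          · right; right; left
            refine ⟨rfl, h1, ?_⟩
            rw [pow_one] at hma'
            omega
      · rcases num_two hi2 hs ht hαβ hα rfl rfl hma' hdiv with h1 | h1 | h1
        · exact Or.inl h1
        · exact Or.inr (Or.inl h1)
        · exact Or.inr (Or.inr (Or.inr h1))
    · rcases num_odd hp hp' hi hs ht hαβ hα rfl rfl hma' hdiv with h1 | h1
      · exact Or.inl h1
      · exact Or.inr (Or.inl h1)
  have htAB : t = p ^ α * p ^ β := by rw [ht, ← hαβ, pow_add]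
  rcases key with h1 | h1 | h1 | ⟨h1, h2, h3⟩ | ⟨h1, h2, h3⟩ | ⟨h1, h2, h3⟩ | ⟨h1, h2, h3⟩
  · -- `A = 1`
    rw [h1, one_mul] at htAB
    rw [h1, ← htAB] at hma'
    have hm1 : m = 2 * (s * t + 1) := by linarith
    left
    refine ⟨hm1, ?_⟩
    by_contra hcon
    push Not at hcon
    obtain ⟨hts, hn39, hn48⟩ := hcon
    have hK := krein_ext h hbot hloc (by omega) (by omega) hm1
    have hij : i < j := by
      rw [hs, ht] at hts
      exact (Nat.pow_lt_pow_iff_right hp.one_lt).1 hts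
    have hpt : p * s ≤ t := by
      rw [hs, ht, ← pow_succ']
      exact Nat.pow_le_pow_right hp.pos (by omega)
    have hsz : (2 : ℤ) ≤ s := by exact_mod_cast (by omega : 2 ≤ s)
    have hpz : (2 : ℤ) ≤ p := by exact_mod_cast hp2
    have hptz : (p : ℤ) * s ≤ t := by exact_mod_cast hpt
    have hK2 : (p : ℤ) * (s - 2) ≤ s := by
      have h4 : (p : ℤ) * s * (s - 2) ≤ t * (s - 2) :=
        mul_le_mul_of_nonneg_right hptz (by linarith)
      have h5 : (s : ℤ) * (p * (s - 2)) ≤ s * s := by linarith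
      exact le_of_mul_le_mul_left h5 (by linarith)
    have hs4 : (s : ℤ) ≤ 4 := by
      have h4 : (2 : ℤ) * (s - 2) ≤ p * (s - 2) := mul_le_mul_of_nonneg_right hpz (by linarith)
      linarith
    have hs4' : s ≤ 4 := by exact_mod_cast hs4
    have hs3 : s = 2 ∨ s = 3 ∨ s = 4 := by omega
    rcases hs3 with h6 | h6 | h6
    · -- `s = 2`
      have hpe : p = 2 := by
        have : p ∣ s := by rw [hs]; exact dvd_pow_self p (by omega)
        rw [h6] at this
        exact (Nat.prime_dvd_prime_iff_eq hp Nat.prime_two).1 this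
      subst hpe
      subst h6
      have ht4 : t = 4 := by
        rcases t_of_two h hbot hloc ht with h7 | h7 | h7 <;> omega
      subst ht4
      -- `m = 18`, `k = 27`, `l = 10`, `n = 52`
      have h2n := two_n_ext h hbot hloc (by omega) (by omega) hm1
      have hn : n = 52 := by omega
      have hm18 : m = 18 := by omega
      have hk27 : k = 27 := by omega
      have hl10 : l = 10 := by omega
      obtain ⟨f, hf⟩ := mult_nat h (by omega) (x := (1 : ℝ)) (y := -9)
        (by rw [hm18, hk27]; norm_num) (by rw [hl10, hm18]; norm_num) (by norm_num)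
      rw [hn, hk27] at hf
      have hf' : (10 : ℝ) * f = 432 := by
        have : ((1 : ℝ) - -9) * f = 10 * f := by ring
        rw [← this, hf]; norm_num
      have hf2 : 10 * f = 432 := by exact_mod_cast hf'
      omega
    · -- `s = 3`
      have hpe : p = 3 := by
        have : p ∣ s := by rw [hs]; exact dvd_pow_self p (by omega)
        rw [h6] at this
        exact (Nat.prime_dvd_prime_iff_eq hp Nat.prime_three).1 this
      subst hpe
      rw [h6] at hK hpt
      push_cast at hK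
      have : t = 9 := by omega
      exact hn39 h6 this
    · -- `s = 4`
      have hpe : p = 2 := by
        have : p ∣ s := by rw [hs]; exact dvd_pow_self p (by omega)
        rw [h6] at this
        have h7 : p ∣ 2 ^ 2 := by simpa using this
        exact (Nat.prime_dvd_prime_iff_eq hp Nat.prime_two).1 (hp.dvd_of_dvd_pow h7)
      subst hpe
      rw [h6] at hK hpt
      push_cast at hK
      have : t = 8 := by omega
      exact hn48 h6 this
  · -- `B = 1`
    rw [h1, mul_one] at htAB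
    rw [h1, ← htAB] at hma'
    right; left
    refine ⟨by linarith, ?_⟩
    rw [htAB, hs]
    exact Nat.pow_le_pow_right hp.pos hα
  · right; right; left; exact h1
  · rw [h2, h3] at htAB hma'
    rw [h1, htAB] at hma'
    right; right; right; right; left
    exact ⟨h1, htAB, by omega⟩
  · rw [h2, h3] at htAB hma'
    rw [h1, htAB] at hma'
    right; right; right; left
    exact ⟨h1, htAB, by omega⟩
  · rw [h2, h3] at htAB hma'
    rw [h1, htAB] at hma'
    right; right; right; right; right; left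
    exact ⟨h1, htAB, by omega⟩
  · rw [h2, h3] at htAB hma'
    rw [h1, htAB] at hma'
    right; right; right; right; right; right
    exact ⟨h1, htAB, by omega⟩

end Pool.Agent.MP3c1a32
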