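import Mathlib

/-! MP_3c1a32_co: the trace of an idempotent matrix -/

namespace Pool.Agent.MP3c1a32

open Matrix

/-- the trace of a real idempotent matrix is a natural number -/
theorem trace_nat {V : Type*} [Fintype V] [DecidableEq V] (E : Matrix V V ℝ) (h : E * E = E) :
    ∃ r : ℕ, E.trace = r := by
  have hid : IsIdempotentElem (Matrix.toLin' E) := by
    unfold IsIdempotentElem
    rw [Module.End.mul_eq_comp, ← Matrix.toLin'_mul, h]
  have hp := LinearMap.IsIdempotentElem.isProj_range _ hid
  have ht := LinearMap.IsProj.trace hp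
  rw [Matrix.trace_toLin'_eq] at ht
  exact ⟨_, ht⟩

end Pool.Agent.MP3c1a32
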